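import Pool.Agent.N594.KR.Layout

/-!
The abstract data structure: two families of lists and a dictionary of sums.
-/

namespace Pool.Agent.N594.KR

open Pool.Agent.H588R2

/-- The list with a given index. -/
def lists (n J : ℕ) (pre suf : ℕ → ℕ → List ℕ) (i : ℕ) : List ℕ :=
  if i < n * J then pre (i / J) (i % J) else suf ((i - n * J) / J) ((i - n * J) % J)

theorem idx_lt {n J u j : ℕ} (hu : u < n) (hj : j < J) : u * J + j < n * J := by
  calc u * J + j < u * J + J := by omega
    _ = (u + 1) * J := by ring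
    _ ≤ n * J := Nat.mul_le_mul_right _ hu

theorem lists_pre {n J : ℕ} {pre suf : ℕ → ℕ → List ℕ} {u j : ℕ} (hu : u < n) (hj : j < J) :
    lists n J pre suf (u * J + j) = pre u j := by
  have h1 : (u * J + j) / J = u := by
    rw [Nat.mul_comm, Nat.mul_add_div (by omega), Nat.div_eq_of_lt hj]; rfl
  have h2 : (u * J + j) % J = j := by
    rw [Nat.mul_comm, Nat.mul_add_mod, Nat.mod_eq_of_lt hj]
  unfold lists
  rw [if_pos (idx_lt hu hj), h1, h2]

theorem lists_suf {n J : ℕ} {pre suf : ℕ → ℕ → List ℕ} {u j : ℕ} (hj : j < J) :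
    lists n J pre suf (n * J + (u * J + j)) = suf u j := by
  have h1 : (u * J + j) / J = u := by
    rw [Nat.mul_comm, Nat.mul_add_div (by omega), Nat.div_eq_of_lt hj]; rfl
  have h2 : (u * J + j) % J = j := by
    rw [Nat.mul_comm, Nat.mul_add_mod, Nat.mod_eq_of_lt hj]
  unfold lists
  rw [if_neg (by omega), Nat.add_sub_cancel_left, h1, h2]

theorem off_le {ℓ : ℕ → List ℕ} {lam : ℕ} : ∀ {N : ℕ}, (∀ i < N, (ℓ i).length ≤ lam) →
    off ℓ N ≤ N * lam := by
  intro N
  induction N with
  | zero => intro _; simp [off]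
  | succ N ih =>
    intro h
    have := ih (fun i hi => h i (by omega))
    have := h N (by omega)
    simp only [off]
    rw [Nat.succ_mul]
    omega

theorem lists_prop {n J : ℕ} {pre suf : ℕ → ℕ → List ℕ} (hJ : 0 < J) {P : List ℕ → Prop}
    (h1 : ∀ u < n, ∀ j < J, P (pre u j)) (h2 : ∀ u < n, ∀ j < J, P (suf u j)) :
    ∀ i < 2 * (n * J), P (lists n J pre suf i) := by
  intro i hi
  unfold lists
  split_ifs with h
  · exact h1 _ ((Nat.div_lt_iff_lt_mul hJ).2 h) _ (Nat.mod_lt _ hJ)
  · exact h2 _ ((Nat.div_lt_iff_lt_mul hJ).2 (by omega)) _ (Nat.mod_lt _ hJ)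

theorem ds_correct {n J L w W lam B : ℕ} (pre suf : ℕ → ℕ → List ℕ) (D : Finset ℕ)
    (hJ : 0 < J) (hD : D.card + 1 ≤ 2 ^ L)
    (hlam1 : ∀ u < n, ∀ j < J, (pre u j).length ≤ lam)
    (hlam2 : ∀ u < n, ∀ j < J, (suf u j).length ≤ lam)
    (hW : ∀ u < n, ∀ v < n, ∀ j < J, (pre u j).length * ((suf v j).length + 1) ≤ W)
    (hpos : ∀ u < n, ∀ v < n, ∀ j < J, ∀ p ∈ pre u j, ∀ q ∈ suf v j, 0 < p + q ∧ p + q < B)
    (he1 : ∀ u < n, ∀ j < J, ∀ p ∈ pre u j, p < B)
    (he2 : ∀ u < n, ∀ j < J, ∀ p ∈ suf u j, p < B)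
    (hw1 : B + 2 ^ L ≤ 2 ^ w)
    (hw2 : 9 + 2 * (n * J) + 2 * (n * J) * lam + L + 2 ^ L + J < 2 ^ w) :
    ∃ M : ℕ → ℕ, (∀ i, M i < 2 ^ w) ∧
      (∀ i, 9 + 2 * (n * J) + 2 * (n * J) * lam + L + 2 ^ L ≤ i → M i = 0) ∧
      ∀ u < n, ∀ v < n, ∀ T : ℝ, ((J * (W * (9 * L + 13) + 10) + 20 : ℕ) : ℝ) ≤ T →
        ∀ (out : ℕ) (H : Prop),
        (H ↔ ∃ j < J, ∃ p ∈ pre u j, ∃ q ∈ suf v j, p + q ∈ D) → Flag out H →
        HaltsWithin w prog ⟨0, ⟨fun r => if r = 0 then u else if r = 1 then v else 0, M⟩⟩ T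
          out := by
  have hLpos : 0 < 2 ^ L := by positivity
  set N := 2 * (n * J) with hN
  set ℓ := lists n J pre suf with hℓ
  set A := dictArr D B with hA
  have hoff : off ℓ N ≤ N * lam := off_le (lists_prop (P := fun l => l.length ≤ lam) hJ hlam1 hlam2)
  have hAlt : ∀ i < 2 ^ L, A i < 2 ^ w := fun i hi => by
    have : A i ≤ B + i := dictArr_le (D := D) (B := B) i
    omega
  have hMlt : ∀ i, image J (n * J) N L ℓ A i < 2 ^ w := by
    refine image_lt (by omega) (by omega) (by omega) ?_ hAlt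
    refine lists_prop (P := fun l => ∀ x ∈ l, x < 2 ^ w) hJ ?_ ?_
    · intro u hu j hj x hx
      have := he1 u hu j hj x hx
      omega
    · intro u hu j hj x hx
      have := he2 u hu j hj x hx
      omega
  refine ⟨image J (n * J) N L ℓ A, hMlt, fun i hi => image_big (by omega), ?_⟩
  intro u hu v hv T hT out H hH hflag
  have hS : SearchMem w (image J (n * J) N L ℓ A) (9 + N + off ℓ N) L A :=
    { hM := hMlt
      hpw := fun j hj => image_pow hj
      hA := fun i hi => image_A hi
      mono := dictArr_mono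
      zero := dictArr_zero
      size := by omega }
  have hAB : B ≤ A (2 ^ L) := le_dictArr hD
  have ea : ∀ j ≤ J, image J (n * J) N L ℓ A (8 + u * J + j) = 9 + N + off ℓ (u * J + j) := by
    intro j hj
    rw [Nat.add_assoc]
    refine image_off ?_
    have : u * J + J ≤ n * J := by
      calc u * J + J = (u + 1) * J := by ring
        _ ≤ n * J := Nat.mul_le_mul_right _ hu
    omega
  have eb : ∀ j ≤ J, image J (n * J) N L ℓ A (8 + n * J + v * J + j) =
      9 + N + off ℓ (n * J + (v * J + j)) := by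
    intro j hj
    have e : 8 + n * J + v * J + j = 8 + (n * J + (v * J + j)) := by omega
    rw [e]
    refine image_off ?_
    have : v * J + J ≤ n * J := by
      calc v * J + J = (v + 1) * J := by ring
        _ ≤ n * J := Nat.mul_le_mul_right _ hv
    omega
  have ea' : ∀ j < J, image J (n * J) N L ℓ A (8 + u * J + j + 1) =
      9 + N + off ℓ (u * J + j) + (pre u j).length := by
    intro j hj
    rw [Nat.add_assoc, ea (j + 1) hj, ← Nat.add_assoc]
    simp only [off]
    rw [hℓ, lists_pre hu hj]; omega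
  have eb' : ∀ j < J, image J (n * J) N L ℓ A (8 + n * J + v * J + j + 1) =
      9 + N + off ℓ (n * J + (v * J + j)) + (suf v j).length := by
    intro j hj
    rw [Nat.add_assoc, eb (j + 1) hj]
    have e : n * J + (v * J + (j + 1)) = n * J + (v * J + j) + 1 := by omega
    rw [e]
    simp only [off]
    rw [hℓ, lists_suf hj]; omega
  have la : ∀ j < J, ∀ r, r < (pre u j).length →
      image J (n * J) N L ℓ A (9 + N + off ℓ (u * J + j) + r) = (pre u j).getD r 0 := by
    intro j hj r hr
    have e : ℓ (u * J + j) = pre u j := lists_pre hu hj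
    rw [image_list (by have := idx_lt hu hj; omega) (by rw [e]; exact hr), e]
  have lb : ∀ j < J, ∀ r, r < (suf v j).length →
      image J (n * J) N L ℓ A (9 + N + off ℓ (n * J + (v * J + j)) + r) = (suf v j).getD r 0 := by
    intro j hj r hr
    have e : ℓ (n * J + (v * J + j)) = suf v j := lists_suf hj
    rw [image_list (by have := idx_lt hv hj; omega) (by rw [e]; exact hr), e]
  refine haltsWithin_prog (H := H) (J := J) (NJ := n * J) (W := W) (L := L) (A := A) hS
    image_zero image_one image_two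
    image_three ?_ ?_ ?_ ?_ ?_ ?_ hT ?_ hflag
  · have : u * J + J ≤ n * J := by
      calc u * J + J = (u + 1) * J := by ring
        _ ≤ n * J := Nat.mul_le_mul_right _ hu
    omega
  · have : v * J + J ≤ n * J := by
      calc v * J + J = (v + 1) * J := by ring
        _ ≤ n * J := Nat.mul_le_mul_right _ hv
    omega
  · intro j hj
    rw [ea' j hj, ea j hj.le]; omega
  · intro j hj
    rw [eb' j hj, eb j hj.le]; omega
  · intro j hj
    rw [ea' j hj, ea j hj.le, eb' j hj, eb j hj.le, Nat.add_sub_cancel_left,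
      Nat.add_sub_cancel_left]
    exact hW u hu v hv j hj
  · intro j hj p hp1 hp2 q hq1 hq2
    rw [ea j hj.le] at hp1
    rw [ea' j hj] at hp2
    rw [eb j hj.le] at hq1
    rw [eb' j hj] at hq2
    obtain ⟨r, rfl⟩ := Nat.exists_eq_add_of_le hp1
    obtain ⟨r', rfl⟩ := Nat.exists_eq_add_of_le hq1
    have hr : r < (pre u j).length := by omega
    have hr' : r' < (suf v j).length := by omega
    rw [la j hj r hr, lb j hj r' hr', List.getD_eq_getElem _ _ hr, List.getD_eq_getElem _ _ hr']
    have := hpos u hu v hv j hj _ (List.getElem_mem hr) _ (List.getElem_mem hr')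
    omega
  · rw [hH]
    constructor
    · rintro ⟨j, hj, p, hp, q, hq, hpq⟩
      refine ⟨j, hj, ?_⟩
      obtain ⟨r, hr, rfl⟩ := List.getElem_of_mem hp
      obtain ⟨r', hr', rfl⟩ := List.getElem_of_mem hq
      refine ⟨9 + N + off ℓ (u * J + j) + r, ?_, ?_, 9 + N + off ℓ (n * J + (v * J + j)) + r',
        ?_, ?_, ?_⟩
      · rw [ea j hj.le]; omega
      · rw [ea' j hj]; omega
      · rw [eb j hj.le]; omega
      · rw [eb' j hj]; omega
      · rw [la j hj r hr, lb j hj r' hr', List.getD_eq_getElem _ _ hr,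
          List.getD_eq_getElem _ _ hr']
        have := hpos u hu v hv j hj _ hp _ hq
        exact (exists_dictArr_iff this.1 this.2).2 hpq
    · rintro ⟨j, hj, p, hp1, hp2, q, hq1, hq2, i, hi⟩
      rw [ea j hj.le] at hp1
      rw [ea' j hj] at hp2
      rw [eb j hj.le] at hq1
      rw [eb' j hj] at hq2
      obtain ⟨r, rfl⟩ := Nat.exists_eq_add_of_le hp1
      obtain ⟨r', rfl⟩ := Nat.exists_eq_add_of_le hq1
      have hr : r < (pre u j).length := by omega
      have hr' : r' < (suf v j).length := by omega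
      rw [la j hj r hr, lb j hj r' hr', List.getD_eq_getElem _ _ hr,
        List.getD_eq_getElem _ _ hr'] at hi
      have := hpos u hu v hv j hj _ (List.getElem_mem hr) _ (List.getElem_mem hr')
      exact ⟨j, hj, _, List.getElem_mem hr, _, List.getElem_mem hr',
        (exists_dictArr_iff this.1 this.2).1 ⟨i, hi⟩⟩

end Pool.Agent.N594.KR
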