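import Pool.Agent.N594.KR.Count
import Pool.Agent.N594.KR.DS

/-!
Assembly of the data structure for one graph.
-/

namespace Pool.Agent.N594.KR

open Finset Classical
open Pool.Agent.H588R2

/-- Code of a prefix entry. -/
def pcode (k n s x : ℕ) : ℕ := (s * (k + 1) * n + x) * n

/-- Code of a suffix entry. -/
def qcode (n t y : ℕ) : ℕ := t * n * n + y + 1

/-- Code of a dictionary entry. -/
def key (k n s t x y : ℕ) : ℕ := ((s * (k + 1) + t) * n + x) * n + y + 1

theorem pcode_add_qcode (k n s t x y : ℕ) :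
    pcode k n s x + qcode n t y = key k n s t x y := by
  unfold pcode qcode key; ring

theorem radix_inj {n a a' x x' : ℕ} (hx : x < n) (hx' : x' < n) (h : a * n + x = a' * n + x') :
    a = a' ∧ x = x' := by
  have h1 := congrArg (· / n) h
  have h2 := congrArg (· % n) h
  beta_reduce at h1 h2
  rw [Nat.mul_comm a, Nat.mul_comm a', Nat.mul_add_div (by omega), Nat.mul_add_div (by omega),
    Nat.div_eq_of_lt hx, Nat.div_eq_of_lt hx'] at h1
  rw [Nat.mul_comm a, Nat.mul_comm a', Nat.mul_add_mod, Nat.mul_add_mod, Nat.mod_eq_of_lt hx,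
    Nat.mod_eq_of_lt hx'] at h2
  exact ⟨by omega, h2⟩

theorem key_inj {k n s t x y s' t' x' y' : ℕ} (ht : t ≤ k) (ht' : t' ≤ k) (hx : x < n)
    (hx' : x' < n) (hy : y < n) (hy' : y' < n) (h : key k n s t x y = key k n s' t' x' y') :
    s = s' ∧ t = t' ∧ x = x' ∧ y = y' := by
  unfold key at h
  obtain ⟨h1, h2⟩ := radix_inj hy hy' (by omega :
    ((s * (k + 1) + t) * n + x) * n + y = ((s' * (k + 1) + t') * n + x') * n + y')
  obtain ⟨h3, h4⟩ := radix_inj hx hx' h1
  obtain ⟨h5, h6⟩ := radix_inj (by omega : t < k + 1) (by omega : t' < k + 1) h3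
  exact ⟨h5, h6, h4, h2⟩

theorem key_lt {k n s t x y : ℕ} (hs : s ≤ k) (ht : t ≤ k) (hx : x < n) (hy : y < n) :
    key k n s t x y < (k + 1) ^ 2 * n ^ 2 + 1 := by
  unfold key
  have h1 : s * (k + 1) + t + 1 ≤ (k + 1) * (k + 1) := by nlinarith
  have h2 : (s * (k + 1) + t) * n + x + 1 ≤ (k + 1) * (k + 1) * n := by
    calc (s * (k + 1) + t) * n + x + 1 ≤ (s * (k + 1) + t) * n + n := by omega
      _ = (s * (k + 1) + t + 1) * n := by ring
      _ ≤ _ := Nat.mul_le_mul_right _ h1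
  have h3 : ((s * (k + 1) + t) * n + x) * n + y + 1 ≤ (k + 1) * (k + 1) * n * n := by
    calc ((s * (k + 1) + t) * n + x) * n + y + 1 ≤ ((s * (k + 1) + t) * n + x) * n + n := by
          omega
      _ = ((s * (k + 1) + t) * n + x + 1) * n := by ring
      _ ≤ _ := Nat.mul_le_mul_right _ h2
  have e : (k + 1) * (k + 1) * n * n = (k + 1) ^ 2 * n ^ 2 := by ring
  omega

section

variable {n : ℕ} (R : Fin n → Fin n → Prop) (k : ℕ)

/-- The dictionary. -/
noncomputable def dict (Θ : ℕ) : Finset ℕ :=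
  (((range (k + 1) ×ˢ range (k + 1)) ×ˢ (univ : Finset (Fin n × Fin n))).filter
    (fun q => Good R k Θ Θ q.1.1 q.1.2 q.2.1 q.2.2)).image
    (fun q => key k n q.1.1 q.1.2 q.2.1 q.2.2)

theorem card_dict (Θ : ℕ) : (dict R k Θ).card ≤ (k + 1) ^ 2 * (allGood R k Θ).card := by
  unfold dict
  refine le_trans card_image_le ?_
  calc _ ≤ ((range (k + 1) ×ˢ range (k + 1)) ×ˢ allGood R k Θ).card := by
        refine card_le_card fun q hq => ?_
        simp only [mem_filter, mem_product, mem_univ, and_true] at hq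
        simp only [mem_product, allGood, mem_filter, mem_univ, true_and]
        refine ⟨hq.1, ?_⟩
        have := hq.2.2.2
        tauto
    _ = _ := by simp only [card_product, card_range]; ring

theorem mem_dict {Θ s t : ℕ} {x y : Fin n} (hs : s ≤ k) (ht : t ≤ k) :
    pcode k n s x + qcode n t y ∈ dict R k Θ ↔ Good R k Θ Θ s t x y := by
  rw [pcode_add_qcode]
  unfold dict
  simp only [mem_image, mem_filter, mem_product, mem_univ, and_true, mem_range]
  constructor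
  · rintro ⟨⟨⟨s', t'⟩, x', y'⟩, ⟨⟨hs', ht'⟩, hg⟩, he⟩
    simp only at hs' ht' hg he
    obtain ⟨h1, h2, h3, h4⟩ := key_inj (by omega) ht x'.2 x.2 y'.2 y.2 he
    have h3' : x' = x := Fin.ext h3
    have h4' : y' = y := Fin.ext h4
    subst h1 h2 h3' h4'
    exact hg
  · intro hg
    exact ⟨((s, t), (x, y)), ⟨⟨Nat.lt_succ_of_le hs, Nat.lt_succ_of_le ht⟩, hg⟩, rfl⟩

/-- Prefix lists. -/
noncomputable def preL (u i : ℕ) : List ℕ :=
  if h : u < n then
    (List.range (k + 1)).flatMap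
      (fun s => ((pre R s (2 ^ i) ⟨u, h⟩).toList.map (fun x : Fin n => pcode k n s x)))
  else []

/-- Suffix lists. -/
noncomputable def sufL (I v i : ℕ) : List ℕ :=
  if h : v < n then
    (List.range (k + 1)).flatMap
      (fun s => ((pre (fun x y => R y x) s (2 ^ (I + 1 - i)) ⟨v, h⟩).toList.map
        (fun x : Fin n => qcode n s x)))
  else []

variable {R k}

theorem mem_preL {u i p : ℕ} (hu : u < n) : p ∈ preL R k u i ↔
    ∃ s ≤ k, ∃ x ∈ pre R s (2 ^ i) ⟨u, hu⟩, p = pcode k n s x := by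
  unfold preL
  rw [dif_pos hu]
  simp only [List.mem_flatMap, List.mem_range, List.mem_map, Finset.mem_toList]
  constructor
  · rintro ⟨s, hs, x, hx, rfl⟩; exact ⟨s, by omega, x, hx, rfl⟩
  · rintro ⟨s, hs, x, hx, rfl⟩; exact ⟨s, by omega, x, hx, rfl⟩

theorem mem_sufL {I u i p : ℕ} (hu : u < n) : p ∈ sufL R k I u i ↔
    ∃ s ≤ k, ∃ x ∈ pre (fun x y => R y x) s (2 ^ (I + 1 - i)) ⟨u, hu⟩, p = qcode n s x := by
  unfold sufL
  rw [dif_pos hu]
  simp only [List.mem_flatMap, List.mem_range, List.mem_map, Finset.mem_toList]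
  constructor
  · rintro ⟨s, hs, x, hx, rfl⟩; exact ⟨s, by omega, x, hx, rfl⟩
  · rintro ⟨s, hs, x, hx, rfl⟩; exact ⟨s, by omega, x, hx, rfl⟩

theorem length_flatMap_le {k B : ℕ} {f : ℕ → List ℕ} (h : ∀ s, (f s).length ≤ B) :
    ((List.range (k + 1)).flatMap f).length ≤ (k + 1) * B := by
  rw [List.length_flatMap]
  have := List.sum_le_card_nsmul ((List.range (k + 1)).map (fun s => (f s).length)) B (by
    intro x hx
    simp only [List.mem_map] at hx
    obtain ⟨s, _, rfl⟩ := hx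
    exact h s)
  simpa using this

theorem length_preL (u i : ℕ) : (preL R k u i).length ≤ (k + 1) * 2 ^ i := by
  unfold preL
  split_ifs with h
  · refine length_flatMap_le fun s => ?_
    rw [List.length_map, Finset.length_toList]
    exact card_pre_le _ _ _ _
  · simp

theorem length_sufL (I u i : ℕ) : (sufL R k I u i).length ≤ (k + 1) * 2 ^ (I + 1 - i) := by
  unfold sufL
  split_ifs with h
  · refine length_flatMap_le fun s => ?_
    rw [List.length_map, Finset.length_toList]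
    exact card_pre_le _ _ _ _
  · simp

/-- The data structure for one graph. -/
theorem one_graph {C I Θ w : ℕ} (E : Fin n → Fin n → Prop)
    (hE : Set.ncard {e : Fin n × Fin n | E e.1 e.2} ≤ C * n)
    (hΘ : ∀ P Q N : ℕ, 0 < P → 0 < Q → P + Q ≤ k →
      (2 : ℝ) ^ ((I : ℝ) * (1 / P + 1 / Q)) ≤ (N : ℝ) → Θ ≤ N)
    (hΘn : Θ ^ (k + 1) ≤ n)
    (hw : ∀ L : ℕ, 2 ^ L * Θ ≤ 2 * (((k + 1) ^ 2 * (4 * (C + 1) + (C + 1) ^ 2 + 1)) * n ^ 2 + Θ) →
      (k + 1) ^ 2 * n ^ 2 + 1 + 2 ^ L ≤ 2 ^ w ∧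
      9 + 2 * (n * (I + 2)) + 2 * (n * (I + 2)) * ((k + 1) * 2 ^ (I + 1)) + L + 2 ^ L + (I + 2)
        < 2 ^ w) :
    ∃ L : ℕ, 2 ^ L * Θ ≤ 2 * (((k + 1) ^ 2 * (4 * (C + 1) + (C + 1) ^ 2 + 1)) * n ^ 2 + Θ) ∧
    ∃ M : ℕ → ℕ, (∀ i, M i < 2 ^ w) ∧
      (∀ i, 9 + 2 * (n * (I + 2)) + 2 * (n * (I + 2)) * ((k + 1) * 2 ^ (I + 1)) + L + 2 ^ L ≤ i →
        M i = 0) ∧
      ∀ u v : Fin n, ∀ T : ℝ,
        (((I + 2) * (((k + 1) * (k + 2) * 2 ^ (I + 1)) * (9 * L + 13) + 10) + 20 : ℕ) : ℝ) ≤ T →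
        HaltsWithin w prog
          ⟨0, ⟨fun r => if r = 0 then u.val else if r = 1 then v.val else 0, M⟩⟩ T
          (if ReachWithin E k u v then 1 else 0) := by
  set R : Fin n → Fin n → Prop := refl E with hR
  have hrefl : ∀ x, R x x := fun x => Or.inl rfl
  -- number of edges
  have he : ∑ x, deg R x ≤ (C + 1) * n := by
    rw [sum_deg_eq]
    have h1 : (univ.filter (fun p : Fin n × Fin n => R p.1 p.2)) ⊆
        (univ.image (fun x : Fin n => (x, x))) ∪
          (univ.filter (fun p : Fin n × Fin n => E p.1 p.2)) := by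
      intro p hp
      have := (mem_filter.1 hp).2
      rcases this with h | h
      · refine mem_union_left _ (mem_image.2 ⟨p.1, mem_univ _, ?_⟩)
        exact Prod.ext rfl h
      · exact mem_union_right _ (mem_filter.2 ⟨mem_univ _, h⟩)
    have h2 : (univ.filter (fun p : Fin n × Fin n => E p.1 p.2)).card ≤ C * n := by
      rw [Set.ncard_eq_toFinset_card'] at hE
      refine le_trans (card_le_card ?_) hE
      intro p hp
      simp only [mem_filter, mem_univ, true_and] at hp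
      simpa using hp
    refine le_trans (card_le_card h1) (le_trans (card_union_le _ _) ?_)
    have h3 : (univ.image (fun x : Fin n => (x, x))).card ≤ n := by
      refine le_trans card_image_le ?_
      simp
    calc _ ≤ n + C * n := Nat.add_le_add h3 h2
      _ = _ := by ring
  -- size of the dictionary
  have hD : (dict R k Θ).card * Θ ≤
      ((k + 1) ^ 2 * (4 * (C + 1) + (C + 1) ^ 2 + 1)) * n ^ 2 := by
    have h1 := card_dict R k Θ
    have h2 := card_allGood R k Θ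
    rw [Fintype.card_fin] at h2
    calc (dict R k Θ).card * Θ ≤ (k + 1) ^ 2 * (allGood R k Θ).card * Θ :=
          Nat.mul_le_mul_right _ h1
      _ = (k + 1) ^ 2 * ((allGood R k Θ).card * Θ) := by ring
      _ ≤ (k + 1) ^ 2 * (4 * (∑ x, deg R x) * n + (∑ x, deg R x) ^ 2 + n * Θ ^ (k + 1)) :=
          Nat.mul_le_mul_left _ h2
      _ ≤ (k + 1) ^ 2 * (4 * ((C + 1) * n) * n + ((C + 1) * n) ^ 2 + n * n) := by gcongr
      _ = _ := by ring
  set D := dict R k Θ with hDdef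
  set L := Nat.clog 2 (D.card + 1) with hL
  have hL1 : D.card + 1 ≤ 2 ^ L := Nat.le_pow_clog (by norm_num) _
  have hL2 : 2 ^ L ≤ 2 * (D.card + 1) := by
    rcases Nat.lt_or_ge 1 (D.card + 1) with h | h
    · have h1 := Nat.pow_pred_clog_lt_self (b := 2) (by norm_num) h
      have hpos : 0 < Nat.clog 2 (D.card + 1) := Nat.clog_pos (by norm_num) h
      have e : Nat.clog 2 (D.card + 1) = (Nat.clog 2 (D.card + 1)).pred + 1 :=
        (Nat.succ_pred_eq_of_pos hpos).symm
      rw [hL, e, pow_succ]; omega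
    · have : D.card + 1 = 1 := by omega
      rw [hL, this]; simp
  have hL3 : 2 ^ L * Θ ≤
      2 * (((k + 1) ^ 2 * (4 * (C + 1) + (C + 1) ^ 2 + 1)) * n ^ 2 + Θ) := by
    calc 2 ^ L * Θ ≤ 2 * (D.card + 1) * Θ := Nat.mul_le_mul_right _ hL2
      _ = 2 * (D.card * Θ + Θ) := by ring
      _ ≤ _ := by gcongr
  obtain ⟨hw1, hw2⟩ := hw L hL3
  refine ⟨L, hL3, ?_⟩
  have hps : ∀ u < n, ∀ v < n, ∀ j < I + 2, ∀ p ∈ preL R k u j, ∀ q ∈ sufL R k I v j,
      0 < p + q ∧ p + q < (k + 1) ^ 2 * n ^ 2 + 1 := by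
    intro u hu v hv j hj p hp q hq
    obtain ⟨s, hs, x, hx, rfl⟩ := (mem_preL hu).1 hp
    obtain ⟨t, ht, y, hy, rfl⟩ := (mem_sufL hv).1 hq
    rw [pcode_add_qcode]
    refine ⟨by unfold key; omega, key_lt hs ht x.2 y.2⟩
  obtain ⟨M, hM1, hM2, hM3⟩ := ds_correct (n := n) (J := I + 2) (L := L) (w := w)
    (W := (k + 1) * (k + 2) * 2 ^ (I + 1)) (lam := (k + 1) * 2 ^ (I + 1))
    (B := (k + 1) ^ 2 * n ^ 2 + 1) (preL R k) (sufL R k I) D (by omega) hL1
    (fun u _ j hj => le_trans (length_preL u j)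
      (Nat.mul_le_mul_left _ (Nat.pow_le_pow_right (by norm_num) (by omega))))
    (fun u _ j hj => le_trans (length_sufL I u j)
      (Nat.mul_le_mul_left _ (Nat.pow_le_pow_right (by norm_num) (by omega))))
    (by
      intro u _ v _ j hj
      have h1 := length_preL (R := R) (k := k) u j
      have h2 := length_sufL (R := R) (k := k) I v j
      have h3 : 1 ≤ 2 ^ (I + 1 - j) := Nat.one_le_two_pow
      have e : 2 ^ (I + 1) = 2 ^ j * 2 ^ (I + 1 - j) := by
        rw [← pow_add]; congr 1; omega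
      calc _ ≤ ((k + 1) * 2 ^ j) * ((k + 1) * 2 ^ (I + 1 - j) + 2 ^ (I + 1 - j)) :=
            Nat.mul_le_mul h1 (Nat.add_le_add h2 h3)
        _ = _ := by rw [e]; ring)
    hps
    (by
      intro u hu j hj p hp
      obtain ⟨s, hs, x, hx, rfl⟩ := (mem_preL hu).1 hp
      have h1 := pcode_add_qcode k n s 0 x x
      have h2 := key_lt hs (Nat.zero_le k) x.2 x.2
      omega)
    (by
      intro u hu j hj p hp
      obtain ⟨s, hs, x, hx, rfl⟩ := (mem_sufL hu).1 hp
      have h1 := pcode_add_qcode k n 0 s x x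
      have h2 := key_lt (Nat.zero_le k) hs x.2 x.2
      omega)
    hw1 hw2
  refine ⟨M, hM1, hM2, ?_⟩
  intro u v T hT
  refine hM3 u.1 u.2 v.1 v.2 T hT _ (ReachWithin E k u v) ?_ ?_
  · rw [reachWithin_iff, correct hrefl (m := Θ) hΘ u v]
    constructor
    · rintro ⟨i, hi, s, hs, x, hx, t, ht, y, hy, hg⟩
      exact ⟨i, by omega, _, (mem_preL u.2).2 ⟨s, hs, x, hx, rfl⟩, _,
        (mem_sufL v.2).2 ⟨t, ht, y, hy, rfl⟩, (mem_dict R k hs ht).2 hg⟩
    · rintro ⟨i, hi, p, hp, q, hq, hpq⟩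
      obtain ⟨s, hs, x, hx, rfl⟩ := (mem_preL u.2).1 hp
      obtain ⟨t, ht, y, hy, rfl⟩ := (mem_sufL v.2).1 hq
      exact ⟨i, by omega, s, hs, x, hx, t, ht, y, hy, (mem_dict R k hs ht).1 hpq⟩
  · unfold Flag
    split_ifs with h
    · exact Or.inl ⟨rfl, h⟩
    · exact Or.inr ⟨rfl, h⟩

end

end Pool.Agent.N594.KR
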