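import Mathlib

/-!
Asymptotic comparison of powers and logarithms.
-/

namespace Pool.Agent.N594.KR

open Filter Asymptotics

theorem log_pow_mul_small (a : ℝ) {ε : ℝ} (hε : 0 < ε) (K : ℝ) :
    ∀ᶠ n : ℕ in atTop, K * Real.log ((n : ℝ) + 2) ^ a < (n : ℝ) ^ ε := by
  have h1 : (fun x : ℝ => Real.log x ^ a) =o[atTop] fun x => x ^ ε :=
    isLittleO_log_rpow_rpow_atTop a hε
  have h2 : ∀ᶠ x : ℝ in atTop, ‖Real.log x ^ a‖ ≤ (1 / ((|K| + 1) * 3 ^ ε * 2)) * ‖x ^ ε‖ :=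
    h1.bound (by positivity)
  have h3 : Tendsto (fun n : ℕ => (n : ℝ) + 2) atTop atTop :=
    tendsto_atTop_add_const_right _ _ tendsto_natCast_atTop_atTop
  filter_upwards [h3.eventually h2, eventually_ge_atTop 1] with n hn hn1
  have hnR : (1 : ℝ) ≤ n := by exact_mod_cast hn1
  have hlog : 0 ≤ Real.log ((n : ℝ) + 2) := Real.log_nonneg (by linarith)
  have e1 : ‖Real.log ((n : ℝ) + 2) ^ a‖ = Real.log ((n : ℝ) + 2) ^ a := by
    rw [Real.norm_eq_abs, abs_of_nonneg (Real.rpow_nonneg hlog _)]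
  have e2 : ‖((n : ℝ) + 2) ^ ε‖ = ((n : ℝ) + 2) ^ ε := by
    rw [Real.norm_eq_abs, abs_of_nonneg (by positivity)]
  rw [e1, e2] at hn
  have h4 : ((n : ℝ) + 2) ^ ε ≤ 3 ^ ε * (n : ℝ) ^ ε := by
    rw [← Real.mul_rpow (by norm_num) (by positivity)]
    exact Real.rpow_le_rpow (by positivity) (by linarith) hε.le
  have hpos : 0 < (n : ℝ) ^ ε := by positivity
  have hK1 : 0 < |K| + 1 := by positivity
  calc K * Real.log ((n : ℝ) + 2) ^ a ≤ (|K| + 1) * Real.log ((n : ℝ) + 2) ^ a := by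
        apply mul_le_mul_of_nonneg_right _ (Real.rpow_nonneg hlog _)
        linarith [le_abs_self K]
    _ ≤ (|K| + 1) * ((1 / ((|K| + 1) * 3 ^ ε * 2)) * (3 ^ ε * (n : ℝ) ^ ε)) := by
        gcongr
        exact le_trans hn (by gcongr)
    _ = (n : ℝ) ^ ε / 2 := by field_simp
    _ < _ := by linarith

end Pool.Agent.N594.KR
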