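import Pool.Agent.N594.KR.Graph

/-!
Completeness of the list/dictionary scheme.
-/

namespace Pool.Agent.N594.KR

open Finset Classical

theorem stair_nat (P Q I : ℕ) (hP : 0 < P) (hQ : 0 < Q) (d d' : ℕ → ℕ) (hd : ∀ i, 1 ≤ d i)
    (hd' : ∀ i, 1 ≤ d' i) (h1 : 2 ^ I ≤ ∏ l ∈ range P, d l) (h2 : 2 ^ I ≤ ∏ l ∈ range Q, d' l) :
    ∃ s < P, ∃ t < Q, (∏ l ∈ range s, d l) * (∏ l ∈ range t, d' l) ≤ 2 ^ I ∧
      (2 : ℝ) ^ ((I : ℝ) * (1 / P + 1 / Q)) ≤ (d s : ℝ) * d' t := by
  have hlogsum : ∀ (e : ℕ → ℕ) (he : ∀ i, 1 ≤ e i) (s : ℕ),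
      ∑ l ∈ range s, Real.logb 2 (e l) = Real.logb 2 (∏ l ∈ range s, e l : ℕ) := by
    intro e he s
    rw [Nat.cast_prod]
    induction s with
    | zero => simp
    | succ s ih =>
      rw [sum_range_succ, prod_range_succ, ih, Real.logb_mul]
      · exact prod_ne_zero_iff.2 fun i _ => by have := he i; positivity
      · have := he s; positivity
  have hlog0 : ∀ (e : ℕ → ℕ) (_ : ∀ i, 1 ≤ e i) (i : ℕ), 0 ≤ Real.logb 2 (e i) := by
    intro e he i
    exact Real.logb_nonneg (by norm_num) (by exact_mod_cast he i)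
  have hge : ∀ (e : ℕ → ℕ) (_ : ∀ i, 1 ≤ e i) (s : ℕ), 2 ^ I ≤ ∏ l ∈ range s, e l →
      (I : ℝ) ≤ ∑ l ∈ range s, Real.logb 2 (e l) := by
    intro e he s h
    rw [hlogsum e he, Real.le_logb_iff_rpow_le (by norm_num)]
    · rw [Real.rpow_natCast]; exact_mod_cast h
    · have : 0 < ∏ l ∈ range s, e l := prod_pos fun i _ => he i
      exact_mod_cast this
  obtain ⟨s, hs, t, ht, h3, h4⟩ := staircase P Q hP hQ (fun i => Real.logb 2 (d i))
    (fun i => Real.logb 2 (d' i)) (hlog0 d hd) (hlog0 d' hd') I (Nat.cast_nonneg _)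
    (hge d hd P h1) (hge d' hd' Q h2)
  refine ⟨s, hs, t, ht, ?_, ?_⟩
  · rw [hlogsum d hd, hlogsum d' hd'] at h3
    have p1 : 0 < ∏ l ∈ range s, d l := prod_pos fun i _ => hd i
    have p2 : 0 < ∏ l ∈ range t, d' l := prod_pos fun i _ => hd' i
    rw [← Real.logb_mul (by positivity) (by positivity),
      Real.logb_le_iff_le_rpow (by norm_num) (by positivity), Real.rpow_natCast] at h3
    exact_mod_cast h3
  · have p1 : 0 < d s := hd s
    have p2 : 0 < d' t := hd' t
    rw [← Real.logb_mul (by positivity) (by positivity),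
      Real.le_logb_iff_rpow_le (by norm_num) (by positivity)] at h4
    exact h4

section

variable {V : Type} [Fintype V] (R : V → V → Prop)

/-- A vertex of large in- or out-degree. -/
def Cheap (m : ℕ) (x : V) : Prop := m < deg R x ∨ m < deg (fun x y => R y x) x

/-- There is a `k`-step walk from `x` to `y` using only vertices of out-degree at most `m`. -/
def Expensive (k m : ℕ) (x y : V) : Prop :=
  ∃ f : ℕ → V, f 0 = x ∧ f k = y ∧ ∀ l < k, R (f l) (f (l + 1)) ∧ deg R (f l) ≤ m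

/-- The dictionary entries. -/
def Good (k m Θ s t : ℕ) (x y : V) : Prop :=
  s + t ≤ k ∧ ReachIn R (k - s - t) x y ∧
    (Cheap R m x ∨ Cheap R m y ∨ Θ ≤ deg R x * deg (fun x y => R y x) y ∨
      (s = 0 ∧ t = 0 ∧ Expensive R k m x y))

variable {R}

theorem complete (hR : ∀ x, R x x) {k m Θ I : ℕ}
    (hΘ : ∀ P Q N : ℕ, 0 < P → 0 < Q → P + Q ≤ k →
      (2 : ℝ) ^ ((I : ℝ) * (1 / P + 1 / Q)) ≤ (N : ℝ) → Θ ≤ N)
    {f : ℕ → V} (hf : ∀ l < k, R (f l) (f (l + 1))) :
    ∃ i ≤ I + 1, ∃ s ≤ k, ∃ x ∈ pre R s (2 ^ i) (f 0), ∃ t ≤ k,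
      ∃ y ∈ pre (fun x y => R y x) t (2 ^ (I + 1 - i)) (f k), Good R k m Θ s t x y := by
  set R' : V → V → Prop := fun x y => R y x with hR'
  set g : ℕ → V := fun l => f (k - l) with hg
  have hg' : ∀ l < k, R' (g l) (g (l + 1)) := by
    intro l hl
    have := hf (k - (l + 1)) (by omega)
    rw [show k - (l + 1) + 1 = k - l by omega] at this
    exact this
  have hg0 : g 0 = f k := rfl
  have hdeg : ∀ x, 1 ≤ deg R x := fun x => card_pos.2 ⟨x, by simp [nb, hR]⟩
  have hdeg' : ∀ x, 1 ≤ deg R' x := fun x => card_pos.2 ⟨x, by simp [nb, hR', hR]⟩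
  have hself : f 0 ∈ pre R 0 (2 ^ 0) (f 0) := by simp [pre]
  have walkto : ∀ s t, s + t ≤ k → ReachIn R (k - s - t) (f s) (g t) := by
    intro s t hst
    have := reachIn_of_fun R f s (k - s - t) (fun l _ h2 => hf l (by omega))
    rw [show s + (k - s - t) = k - t by omega] at this
    exact this
  by_cases hA : ∀ l ≤ k, ¬ Cheap R m (f l)
  · refine ⟨0, by omega, 0, by omega, f 0, hself, 0, by omega, f k, ?_, by omega, ?_, ?_⟩
    · have : 1 ≤ 2 ^ (I + 1 - 0) := Nat.one_le_two_pow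
      simp only [pre, if_pos this, mem_singleton]
    · exact walkto 0 0 (by omega)
    · refine Or.inr (Or.inr (Or.inr ⟨rfl, rfl, f, rfl, rfl, fun l hl => ⟨hf l hl, ?_⟩⟩))
      have := hA l hl.le
      unfold Cheap at this
      omega
  · push Not at hA
    obtain ⟨l0, hl0, hc0⟩ := hA
    have ex1 : ∃ l, l ≤ k ∧ Cheap R m (f l) := ⟨l0, hl0, hc0⟩
    have ex2 : ∃ l, l ≤ k ∧ Cheap R m (g l) := ⟨k - l0, by omega, by
      simp only [hg]; rw [show k - (k - l0) = l0 by omega]; exact hc0⟩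
    obtain ⟨i0, ⟨hi0, hci⟩, hmin⟩ : ∃ i0, (i0 ≤ k ∧ Cheap R m (f i0)) ∧
        ∀ l, l < i0 → ¬ (l ≤ k ∧ Cheap R m (f l)) :=
      ⟨Nat.find ex1, Nat.find_spec ex1, fun l hl => Nat.find_min ex1 hl⟩
    obtain ⟨t0, ⟨ht0, hct⟩, hmin'⟩ : ∃ i0, (i0 ≤ k ∧ Cheap R m (g i0)) ∧
        ∀ l, l < i0 → ¬ (l ≤ k ∧ Cheap R m (g l)) :=
      ⟨Nat.find ex2, Nat.find_spec ex2, fun l hl => Nat.find_min ex2 hl⟩
    have hsum : i0 + t0 ≤ k := by
      by_contra hcon
      exact hmin (k - t0) (by omega) ⟨by omega, hct⟩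
    by_cases hp : ∏ l ∈ range i0, deg R (f l) ≤ 2 ^ I
    · refine ⟨I, by omega, i0, hi0, f i0, mem_pre R i0 _ f (fun l hl => hf l (by omega)) hp,
        0, by omega, f k, ?_, by omega, ?_, Or.inl hci⟩
      · have : 1 ≤ 2 ^ (I + 1 - I) := Nat.one_le_two_pow
        simp only [pre, if_pos this, mem_singleton]
      · exact walkto i0 0 (by omega)
    · by_cases hq : ∏ l ∈ range t0, deg R' (g l) ≤ 2 ^ I
      · refine ⟨0, by omega, 0, by omega, f 0, hself, t0, ht0, g t0, ?_, by omega, ?_,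
          Or.inr (Or.inl hct)⟩
        · rw [← hg0]
          refine mem_pre R' t0 _ g (fun l hl => hg' l (by omega)) (le_trans hq ?_)
          exact Nat.pow_le_pow_right (by norm_num) (by omega)
        · exact walkto 0 t0 (by omega)
      · push Not at hp hq
        have hi0' : 0 < i0 := by
          rcases Nat.eq_zero_or_pos i0 with h | h
          · rw [h] at hp; simp at hp
          · exact h
        have ht0' : 0 < t0 := by
          rcases Nat.eq_zero_or_pos t0 with h | h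
          · rw [h] at hq; simp at hq
          · exact h
        obtain ⟨s, hs, t, ht, h3, h4⟩ := stair_nat i0 t0 I hi0' ht0' (fun l => deg R (f l))
          (fun l => deg R' (g l)) (fun _ => hdeg _) (fun _ => hdeg' _) hp.le hq.le
        have hN : Θ ≤ deg R (f s) * deg R' (g t) := by
          refine hΘ i0 t0 _ hi0' ht0' hsum ?_
          push_cast
          exact h4
        set A := ∏ l ∈ range s, deg R (f l) with hAdef
        set A' := ∏ l ∈ range t, deg R' (g l) with hAdef'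
        have hApos : 0 < A := prod_pos fun i _ => hdeg _
        have hApos' : 0 < A' := prod_pos fun i _ => hdeg' _
        have hc1 : A ≤ 2 ^ Nat.clog 2 A := Nat.le_pow_clog (by norm_num) _
        have hc2 : 2 ^ Nat.clog 2 A ≤ 2 * A := by
          rcases Nat.lt_or_ge 1 A with h | h
          · have := Nat.pow_pred_clog_lt_self (b := 2) (by norm_num) h
            have hpos : 0 < Nat.clog 2 A := Nat.clog_pos (by norm_num) h
            have e : Nat.clog 2 A = (Nat.clog 2 A).pred + 1 := by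
              rw [← Nat.succ_eq_add_one, Nat.succ_pred_eq_of_pos hpos]
            rw [e, pow_succ]; omega
          · have : A = 1 := by omega
            rw [this]; simp
        set i := Nat.clog 2 A with hi
        have hiI : 2 ^ i * A' ≤ 2 ^ (I + 1) := by
          calc 2 ^ i * A' ≤ 2 * A * A' := Nat.mul_le_mul_right _ hc2
            _ = 2 * (A * A') := by ring
            _ ≤ 2 * 2 ^ I := Nat.mul_le_mul_left _ h3
            _ = 2 ^ (I + 1) := by ring
        have hile : i ≤ I + 1 := by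
          have : 2 ^ i ≤ 2 ^ (I + 1) := le_trans (Nat.le_mul_of_pos_right _ hApos') hiI
          exact (Nat.pow_le_pow_iff_right (by norm_num)).1 this
        have hA'le : A' ≤ 2 ^ (I + 1 - i) := by
          have e : 2 ^ (I + 1) = 2 ^ i * 2 ^ (I + 1 - i) := by
            rw [← pow_add]; congr 1; omega
          rw [e] at hiI
          exact Nat.le_of_mul_le_mul_left hiI (by positivity)
        refine ⟨i, hile, s, by omega, f s, mem_pre R s _ f (fun l hl => hf l (by omega)) hc1,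
          t, by omega, g t, ?_, by omega, walkto s t (by omega), Or.inr (Or.inr (Or.inl hN))⟩
        rw [← hg0]
        exact mem_pre R' t _ g (fun l hl => hg' l (by omega)) hA'le

/-- The scheme is correct. -/
theorem correct (hR : ∀ x, R x x) {k m Θ I : ℕ}
    (hΘ : ∀ P Q N : ℕ, 0 < P → 0 < Q → P + Q ≤ k →
      (2 : ℝ) ^ ((I : ℝ) * (1 / P + 1 / Q)) ≤ (N : ℝ) → Θ ≤ N) (u v : V) :
    ReachIn R k u v ↔ ∃ i ≤ I + 1, ∃ s ≤ k, ∃ x ∈ pre R s (2 ^ i) u, ∃ t ≤ k,
      ∃ y ∈ pre (fun x y => R y x) t (2 ^ (I + 1 - i)) v, Good R k m Θ s t x y := by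
  constructor
  · intro h
    obtain ⟨f, hf0, hfk, hf⟩ := exists_fun_of_reachIn R h
    have := complete (m := m) hR hΘ hf
    rwa [hf0, hfk] at this
  · rintro ⟨i, hi, s, hs, x, hx, t, ht, y, hy, hst, hw, -⟩
    have h1 := reachIn_of_mem_pre R s _ _ _ hx
    have h2 := reachIn_flip R (reachIn_of_mem_pre _ t _ _ _ hy)
    have := reachIn_add R (reachIn_add R h1 hw) h2
    rwa [show s + (k - s - t) + t = k by omega] at this

end

end Pool.Agent.N594.KR
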