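import Pool.Agent.N594.KR.Complete

/-!
The number of dictionary entries.
-/

namespace Pool.Agent.N594.KR

open Finset Classical

section

variable {V : Type} [Fintype V] (R : V → V → Prop)

theorem sum_deg_eq : ∑ x, deg R x = (univ.filter (fun p : V × V => R p.1 p.2)).card := by
  rw [← univ_product_univ, card_filter, sum_product]
  refine sum_congr rfl fun x _ => ?_
  rw [deg, nb, card_filter]

theorem sum_deg_flip : ∑ x, deg (fun x y => R y x) x = ∑ x, deg R x := by
  have h : ∀ x, deg (fun x y => R y x) x = ∑ y, if R y x then 1 else 0 := by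
    intro x; rw [deg, nb, card_filter]
  have h' : ∀ x, deg R x = ∑ y, if R x y then 1 else 0 := by
    intro x; rw [deg, nb, card_filter]
  simp_rw [h, h']
  exact sum_comm

theorem card_cheap (m : ℕ) :
    (univ.filter (fun x => Cheap R m x)).card * m ≤ 2 * ∑ x, deg R x := by
  have h1 : (univ.filter (fun x => m < deg R x)).card * m ≤ ∑ x, deg R x := by
    rw [← smul_eq_mul, ← sum_const]
    refine le_trans (sum_le_sum (g := fun x => deg R x) fun x hx => ?_)
      (sum_le_sum_of_subset (filter_subset _ _))
    exact (mem_filter.1 hx).2.le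
  have h2 : (univ.filter (fun x => m < deg (fun x y => R y x) x)).card * m ≤ ∑ x, deg R x := by
    rw [← sum_deg_flip R, ← smul_eq_mul, ← sum_const]
    refine le_trans (sum_le_sum (g := fun x => deg (fun x y => R y x) x) fun x hx => ?_)
      (sum_le_sum_of_subset (filter_subset _ _))
    exact (mem_filter.1 hx).2.le
  have h3 : (univ.filter (fun x => Cheap R m x)).card ≤
      (univ.filter (fun x => m < deg R x)).card +
        (univ.filter (fun x => m < deg (fun x y => R y x) x)).card := by
    refine le_trans (card_le_card ?_) (card_union_le _ _)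
    intro x hx
    have := (mem_filter.1 hx).2
    rcases this with h | h
    · exact mem_union_left _ (mem_filter.2 ⟨mem_univ _, h⟩)
    · exact mem_union_right _ (mem_filter.2 ⟨mem_univ _, h⟩)
  have := Nat.mul_le_mul_right m h3
  rw [add_mul] at this
  omega

theorem card_A1 (m : ℕ) :
    (univ.filter (fun p : V × V => Cheap R m p.1)).card * m ≤
      2 * (∑ x, deg R x) * Fintype.card V := by
  have h : (univ.filter (fun p : V × V => Cheap R m p.1)).card ≤
      (univ.filter (fun x => Cheap R m x)).card * Fintype.card V := by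
    rw [← Finset.card_univ, ← card_product]
    refine card_le_card fun p hp => ?_
    exact mem_product.2 ⟨mem_filter.2 ⟨mem_univ _, (mem_filter.1 hp).2⟩, mem_univ _⟩
  have h2 := card_cheap R m
  calc _ ≤ (univ.filter (fun x => Cheap R m x)).card * Fintype.card V * m :=
        Nat.mul_le_mul_right _ h
    _ = (univ.filter (fun x => Cheap R m x)).card * m * Fintype.card V := by ring
    _ ≤ _ := Nat.mul_le_mul_right _ h2

theorem card_A2 (m : ℕ) :
    (univ.filter (fun p : V × V => Cheap R m p.2)).card * m ≤
      2 * (∑ x, deg R x) * Fintype.card V := by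
  have h : (univ.filter (fun p : V × V => Cheap R m p.2)).card ≤
      Fintype.card V * (univ.filter (fun x => Cheap R m x)).card := by
    rw [← Finset.card_univ, ← card_product]
    refine card_le_card fun p hp => ?_
    exact mem_product.2 ⟨mem_univ _, mem_filter.2 ⟨mem_univ _, (mem_filter.1 hp).2⟩⟩
  have h2 := card_cheap R m
  calc _ ≤ Fintype.card V * (univ.filter (fun x => Cheap R m x)).card * m :=
        Nat.mul_le_mul_right _ h
    _ = (univ.filter (fun x => Cheap R m x)).card * m * Fintype.card V := by ring
    _ ≤ _ := Nat.mul_le_mul_right _ h2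

theorem card_A3 (Θ : ℕ) :
    (univ.filter (fun p : V × V => Θ ≤ deg R p.1 * deg (fun x y => R y x) p.2)).card * Θ ≤
      (∑ x, deg R x) ^ 2 := by
  calc _ = ∑ p ∈ univ.filter (fun p : V × V => Θ ≤ deg R p.1 * deg (fun x y => R y x) p.2), Θ := by
        rw [sum_const, smul_eq_mul]
    _ ≤ ∑ p ∈ univ.filter (fun p : V × V => Θ ≤ deg R p.1 * deg (fun x y => R y x) p.2),
          deg R p.1 * deg (fun x y => R y x) p.2 := sum_le_sum fun p hp => (mem_filter.1 hp).2
    _ ≤ ∑ p : V × V, deg R p.1 * deg (fun x y => R y x) p.2 :=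
        sum_le_sum_of_subset (filter_subset _ _)
    _ = (∑ x, deg R x) ^ 2 := by
        rw [← univ_product_univ, sum_product, sq]
        nth_rw 2 [← sum_deg_flip R]
        rw [sum_mul_sum]

theorem card_A4 (k m : ℕ) :
    (univ.filter (fun p : V × V => Expensive R k m p.1 p.2)).card ≤
      Fintype.card V * m ^ k := by
  calc _ ≤ ((univ : Finset V).sigma (fun x => pre R k (m ^ k) x)).card := by
        refine card_le_card_of_injOn (fun p => ⟨p.1, p.2⟩) ?_ ?_
        · intro p hp
          obtain ⟨f, hf0, hfk, hf⟩ := (mem_filter.1 hp).2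
          simp only [coe_sigma, Set.mem_sigma_iff, mem_coe, mem_univ, true_and]
          rw [← hf0, ← hfk]
          refine mem_pre R k _ f (fun l hl => (hf l hl).1) ?_
          calc ∏ l ∈ range k, deg R (f l) ≤ ∏ l ∈ range k, m :=
                prod_le_prod' fun l hl => (hf l (mem_range.1 hl)).2
            _ = m ^ k := by simp
        · intro p _ q _ h
          simp only [Sigma.mk.injEq, heq_eq_eq] at h
          exact Prod.ext h.1 h.2
    _ = ∑ x, (pre R k (m ^ k) x).card := card_sigma _ _
    _ ≤ ∑ x : V, m ^ k := sum_le_sum fun x _ => card_pre_le R k _ x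
    _ = _ := by rw [sum_const, smul_eq_mul, Finset.card_univ]

/-- All entries of the dictionary, for any `s`, `t`. -/
noncomputable def allGood (k Θ : ℕ) : Finset (V × V) :=
  univ.filter (fun p : V × V => Cheap R Θ p.1 ∨ Cheap R Θ p.2 ∨
    Θ ≤ deg R p.1 * deg (fun x y => R y x) p.2 ∨ Expensive R k Θ p.1 p.2)

theorem card_allGood (k Θ : ℕ) :
    (allGood R k Θ).card * Θ ≤ 4 * (∑ x, deg R x) * Fintype.card V + (∑ x, deg R x) ^ 2 +
      Fintype.card V * Θ ^ (k + 1) := by
  have h : (allGood R k Θ).card ≤
      (univ.filter (fun p : V × V => Cheap R Θ p.1)).card +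
      ((univ.filter (fun p : V × V => Cheap R Θ p.2)).card +
      ((univ.filter (fun p : V × V => Θ ≤ deg R p.1 * deg (fun x y => R y x) p.2)).card +
      (univ.filter (fun p : V × V => Expensive R k Θ p.1 p.2)).card)) := by
    refine le_trans (card_le_card (t := (univ.filter (fun p : V × V => Cheap R Θ p.1)) ∪
      ((univ.filter (fun p : V × V => Cheap R Θ p.2)) ∪
      ((univ.filter (fun p : V × V => Θ ≤ deg R p.1 * deg (fun x y => R y x) p.2)) ∪
      (univ.filter (fun p : V × V => Expensive R k Θ p.1 p.2))))) ?_) ?_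
    · intro p hp
      simp only [allGood, mem_filter, mem_univ, true_and] at hp
      simp only [mem_union, mem_filter, mem_univ, true_and]
      exact hp
    · refine le_trans (card_union_le _ _) (Nat.add_le_add_left ?_ _)
      refine le_trans (card_union_le _ _) (Nat.add_le_add_left ?_ _)
      exact card_union_le _ _
  have h1 := card_A1 R Θ
  have h2 := card_A2 R Θ
  have h3 := card_A3 R Θ
  have h4 := Nat.mul_le_mul_right Θ (card_A4 R k Θ)
  have e4 : Fintype.card V * Θ ^ k * Θ = Fintype.card V * Θ ^ (k + 1) := by ring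
  have := Nat.mul_le_mul_right Θ h
  simp only [add_mul] at this
  have e1 : 4 * (∑ x, deg R x) * Fintype.card V =
    2 * (∑ x, deg R x) * Fintype.card V + 2 * (∑ x, deg R x) * Fintype.card V := by ring
  omega

end

end Pool.Agent.N594.KR
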