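import Pool.Agent.H588R2.Model

/-!
# Bounded-length reachability oracles

Word RAM data structures for the `k`-reachability problem on sparse directed graphs.
-/

namespace Pool.Agent.N594.KR

open Pool.Agent.H588R2

/-- There is a walk with exactly `j` edges from `u` to `v` in the directed graph `E`. -/
def ReachIn {V : Type} (E : V → V → Prop) : ℕ → V → V → Prop
  | 0, u, v => u = v
  | j + 1, u, v => ∃ x, E u x ∧ ReachIn E j x v

/-- There is a walk (equivalently, a path) with at most `k` edges from `u` to `v` in `E`. -/
def ReachWithin {V : Type} (E : V → V → Prop) (k : ℕ) (u v : V) : Prop :=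
  ∃ j ≤ k, ReachIn E j u v

open Classical in
/-- The word RAM program `P`, together with a suitable memory image for every graph, is an oracle
for `k`-reachability in directed graphs with `n` vertices and at most `C * n` edges, with space
`S n` and query time `T n`, on machines with words of `w` bits whenever `(n + 1) ^ b ≤ 2 ^ w`
(that is, `w ≥ b * log₂ (n + 1)`).

For every such graph `E` there is a memory image `M` of words of `w` bits, with zeros at all
addresses `≥ S n`, such that for all vertices `u`, `v` the program, started with `u` and `v` in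
the registers `0` and `1` (all other registers `0`) and with memory `M`, halts within `T n` steps
with output `1` if `v` can be reached from `u` by at most `k` edges, and `0` otherwise.
The program never writes to the memory. -/
def IsOracle (k C b : ℕ) (P : List Instr) (S T : ℕ → ℝ) : Prop :=
  (∀ a s : ℕ, Instr.op (Op.store a s) ∉ P) ∧
  ∀ n w : ℕ, (n + 1) ^ b ≤ 2 ^ w → ∀ E : Fin n → Fin n → Prop,
    Set.ncard {e : Fin n × Fin n | E e.1 e.2} ≤ C * n →
    ∃ M : ℕ → ℕ, (∀ i, M i < 2 ^ w) ∧ (∀ i : ℕ, S n ≤ i → M i = 0) ∧
      ∀ u v : Fin n, HaltsWithin w P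
        ⟨0, ⟨fun r => if r = 0 then u.val else if r = 1 then v.val else 0, M⟩⟩ (T n)
        (if ReachWithin E k u v then 1 else 0)

/-- The exponent `1 / ⌊k / 2⌋ + 1 / ⌈k / 2⌉` of the tradeoff. -/
noncomputable def gam (k : ℕ) : ℝ := 1 / ((k / 2 : ℕ) : ℝ) + 1 / (((k + 1) / 2 : ℕ) : ℝ)

end Pool.Agent.N594.KR
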