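import Pool.Agent.N594.KR.Defs

/-!
The exponent of the tradeoff.
-/

namespace Pool.Agent.N594.KR

theorem gam_le {k P Q : ℕ} (hP : 0 < P) (hQ : 0 < Q) (h : P + Q ≤ k) :
    gam k ≤ 1 / (P : ℝ) + 1 / (Q : ℝ) := by
  unfold gam
  obtain ⟨a, ha⟩ : ∃ a, a = k / 2 := ⟨_, rfl⟩
  obtain ⟨b, hb⟩ : ∃ b, b = (k + 1) / 2 := ⟨_, rfl⟩
  obtain ⟨Q', hQ'⟩ : ∃ Q', Q' = k - P := ⟨_, rfl⟩
  rw [← ha, ← hb]
  have hab : a + b = k := by omega
  have hPQ : P + Q' = k := by omega
  have hQle : Q ≤ Q' := by omega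
  have h1 : (1 : ℝ) / Q' ≤ 1 / Q := by
    apply one_div_le_one_div_of_le
    · exact_mod_cast hQ
    · exact_mod_cast hQle
  have hprod : P * Q' ≤ a * b := by
    rcases le_or_gt P a with h2 | h2
    · have h3 : b ≤ Q' := by omega
      obtain ⟨c, rfl⟩ := Nat.exists_eq_add_of_le h2
      have : Q' = b + c := by omega
      subst this
      have : P ≤ b := by omega
      nlinarith
    · have h3 : Q' ≤ a := by omega
      have h4 : b ≤ P := by omega
      obtain ⟨c, rfl⟩ := Nat.exists_eq_add_of_le h3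
      have : P = b + c := by omega
      subst this
      have : Q' ≤ b := by omega
      nlinarith
  have ha0 : (0 : ℝ) < a := by
    have : 0 < a := by omega
    exact_mod_cast this
  have hb0 : (0 : ℝ) < b := by
    have : 0 < b := by omega
    exact_mod_cast this
  have hP0 : (0 : ℝ) < P := by exact_mod_cast hP
  have hQ0 : (0 : ℝ) < Q' := by
    have : 0 < Q' := by omega
    exact_mod_cast this
  have e1 : (1 : ℝ) / a + 1 / b = k / (a * b) := by
    have : (k : ℝ) = a + b := by exact_mod_cast hab.symm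
    rw [this]; field_simp; ring
  have e2 : (1 : ℝ) / P + 1 / Q' = k / (P * Q') := by
    have : (k : ℝ) = P + Q' := by exact_mod_cast hPQ.symm
    rw [this]; field_simp; ring
  have h5 : (k : ℝ) / (a * b) ≤ k / (P * Q') := by
    apply div_le_div_of_nonneg_left (Nat.cast_nonneg _) (by positivity)
    exact_mod_cast hprod
  linarith

theorem gam_le_two {k : ℕ} (hk : 2 ≤ k) : gam k ≤ 2 := by
  unfold gam
  have h1 : (1 : ℝ) ≤ ((k / 2 : ℕ) : ℝ) := by
    have : 1 ≤ k / 2 := by omega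
    exact_mod_cast this
  have h2 : (1 : ℝ) ≤ (((k + 1) / 2 : ℕ) : ℝ) := by
    have : 1 ≤ (k + 1) / 2 := by omega
    exact_mod_cast this
  have h3 : 1 / ((k / 2 : ℕ) : ℝ) ≤ 1 := by rw [div_le_one (by linarith)]; exact h1
  have h4 : 1 / (((k + 1) / 2 : ℕ) : ℝ) ≤ 1 := by rw [div_le_one (by linarith)]; exact h2
  linarith

theorem gam_gt {k : ℕ} (hk : 3 ≤ k) : 2 / ((k : ℝ) - 1) < gam k := by
  unfold gam
  obtain ⟨a, ha⟩ : ∃ a, a = k / 2 := ⟨_, rfl⟩
  obtain ⟨b, hb⟩ : ∃ b, b = (k + 1) / 2 := ⟨_, rfl⟩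
  rw [← ha, ← hb]
  have hab : a + b = k := by omega
  have ha1 : 1 ≤ a := by omega
  have hb1 : 2 ≤ b := by omega
  have ha0 : (1 : ℝ) ≤ a := by exact_mod_cast ha1
  have hb0 : (2 : ℝ) ≤ b := by exact_mod_cast hb1
  have hk' : (k : ℝ) = a + b := by exact_mod_cast hab.symm
  rw [hk', div_add_div _ _ (by positivity) (by positivity), div_lt_div_iff₀ (by linarith)
    (by positivity)]
  nlinarith [sq_nonneg ((a : ℝ) - b)]

theorem gam_pos {k : ℕ} (hk : 2 ≤ k) : 0 < gam k := by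
  unfold gam
  have h1 : (0 : ℝ) < ((k / 2 : ℕ) : ℝ) := by
    have : 0 < k / 2 := by omega
    exact_mod_cast this
  have h2 : (0 : ℝ) < (((k + 1) / 2 : ℕ) : ℝ) := by
    have : 0 < (k + 1) / 2 := by omega
    exact_mod_cast this
  positivity

end Pool.Agent.N594.KR
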