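import Mathlib

/-!
A staircase lemma: two increasing staircases of bounded numbers of steps that both rise above
level `L` have steps of large total height crossing the line `x + y = L`.
-/

namespace Pool.Agent.N594.KR

open Finset

/-- Overlap length of the intervals `[a,b]` and `[c,d]`. -/
noncomputable def ov (a b c d : ℝ) : ℝ := max 0 (min b d - max a c)

theorem ov_nonneg (a b c d : ℝ) : 0 ≤ ov a b c d := le_max_left _ _

theorem ov_eq_left {a b c d : ℝ} (h1 : a ≤ b) (h2 : c ≤ d) :
    ov a b c d = max a (min b d) - max a (min b c) := by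
  simp only [ov, min_def, max_def]
  split_ifs <;> linarith

theorem ov_eq_right {a b c d : ℝ} (h1 : a ≤ b) (h2 : c ≤ d) :
    ov a b c d = max c (min d b) - max c (min d a) := by
  have : ov a b c d = ov c d a b := by
    unfold ov; rw [min_comm b d, max_comm a c]
  rw [this, ov_eq_left h2 h1]

theorem ov_pos {a b c d : ℝ} (h : 0 < ov a b c d) : a < d ∧ c < b := by
  unfold ov at h
  have h2 : 0 < min b d - max a c := by
    rcases lt_max_iff.1 h with h | h
    · exact absurd h (lt_irrefl _)
    · exact h
  constructor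
  · have := le_max_left a c; have := min_le_right b d; linarith
  · have := le_max_right a c; have := min_le_left b d; linarith

/-- The staircase lemma. -/
theorem staircase (P Q : ℕ) (hP : 0 < P) (hQ : 0 < Q) (a b : ℕ → ℝ) (ha : ∀ i, 0 ≤ a i)
    (hb : ∀ i, 0 ≤ b i) (L : ℝ) (hL : 0 ≤ L) (hA : L ≤ ∑ l ∈ range P, a l)
    (hB : L ≤ ∑ l ∈ range Q, b l) :
    ∃ s < P, ∃ t < Q, ∑ l ∈ range s, a l + ∑ l ∈ range t, b l ≤ L ∧
      L * (1 / P + 1 / Q) ≤ a s + b t := by
  rcases hL.eq_or_lt with h0 | hLpos
  · refine ⟨0, hP, 0, hQ, ?_, ?_⟩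
    · simp [← h0]
    · rw [← h0]; have := ha 0; have := hb 0; simp; linarith
  set SA : ℕ → ℝ := fun s => ∑ l ∈ range s, a l with hSA
  set SB : ℕ → ℝ := fun s => ∑ l ∈ range s, b l with hSB
  set x : ℕ → ℝ := fun s => min (SA s) L with hx
  set y : ℕ → ℝ := fun t => L - min (SB t) L with hy
  have SAm : ∀ s, SA s ≤ SA (s + 1) := fun s => by
    simp only [hSA, sum_range_succ]; have := ha s; linarith
  have SBm : ∀ s, SB s ≤ SB (s + 1) := fun s => by
    simp only [hSB, sum_range_succ]; have := hb s; linarith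
  have xm : ∀ s, x s ≤ x (s + 1) := fun s => min_le_min_right _ (SAm s)
  have ym : ∀ s, y (s + 1) ≤ y s := fun s => by
    have := min_le_min_right L (SBm s); simp only [hy]; linarith
  have SA0 : ∀ s, 0 ≤ SA s := fun s => sum_nonneg fun i _ => ha i
  have SB0 : ∀ s, 0 ≤ SB s := fun s => sum_nonneg fun i _ => hb i
  have x0 : x 0 = 0 := by simp [hx, hSA, hL]
  have xP : x P = L := min_eq_right hA
  have y0 : y 0 = L := by simp [hy, hSB, hL]
  have yQ : y Q = 0 := by simp only [hy]; rw [min_eq_right hB]; ring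
  have xr : ∀ s, 0 ≤ x s ∧ x s ≤ L := fun s => ⟨le_min (SA0 s) hL, min_le_right _ _⟩
  have yr : ∀ s, 0 ≤ y s ∧ y s ≤ L := fun s => by
    have h1 := min_le_right (SB s) L
    have h2 : 0 ≤ min (SB s) L := le_min (SB0 s) hL
    simp only [hy]; constructor <;> linarith
  set lam : ℕ → ℕ → ℝ := fun s t => ov (x s) (x (s + 1)) (y (t + 1)) (y t) with hlam
  have hlam0 : ∀ s t, 0 ≤ lam s t := fun s t => ov_nonneg _ _ _ _
  have rowsum : ∀ s, ∑ t ∈ range Q, lam s t = x (s + 1) - x s := by
    intro s
    have e : ∀ t ∈ range Q, lam s t =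
        (fun t => max (x s) (min (x (s + 1)) (y t))) t -
        (fun t => max (x s) (min (x (s + 1)) (y t))) (t + 1) := fun t _ => ov_eq_left (xm s) (ym t)
    rw [sum_congr rfl e, sum_range_sub']
    simp only [y0, yQ]
    rw [min_eq_left (xr _).2, max_eq_right (xm s), min_eq_right (xr _).1, max_eq_left (xr _).1]
  have colsum : ∀ t, ∑ s ∈ range P, lam s t = y t - y (t + 1) := by
    intro t
    have e : ∀ s ∈ range P, lam s t =
        (fun s => max (y (t + 1)) (min (y t) (x s))) (s + 1) -
        (fun s => max (y (t + 1)) (min (y t) (x s))) s := fun s _ => ov_eq_right (xm s) (ym t)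
    rw [sum_congr rfl e, sum_range_sub (fun s => max (y (t + 1)) (min (y t) (x s)))]
    simp only [x0, xP]
    rw [min_eq_left (yr _).2, max_eq_right (ym t), min_eq_right (yr _).1, max_eq_left (yr _).1]
  have hxa : ∀ s, x (s + 1) - x s ≤ a s := by
    intro s
    have e : SA (s + 1) = SA s + a s := by simp only [hSA, sum_range_succ]
    simp only [hx, e]
    have := ha s
    rcases le_total (SA s) L with h | h
    · rw [min_eq_left h]; have := min_le_left (SA s + a s) L; linarith
    · rw [min_eq_right h, min_eq_right (by linarith)]; linarith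
  have hyb : ∀ s, y s - y (s + 1) ≤ b s := by
    intro s
    have e : SB (s + 1) = SB s + b s := by simp only [hSB, sum_range_succ]
    simp only [hy, e]
    have := hb s
    rcases le_total (SB s) L with h | h
    · rw [min_eq_left h]; have := min_le_left (SB s + b s) L; linarith
    · rw [min_eq_right h, min_eq_right (by linarith)]; linarith
  have totx : ∑ s ∈ range P, (x (s + 1) - x s) = L := by
    rw [sum_range_sub, x0, xP]; ring
  have toty : ∑ t ∈ range Q, (y t - y (t + 1)) = L := by
    rw [sum_range_sub', y0, yQ]; ring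
  have csx : L ^ 2 ≤ P * ∑ s ∈ range P, (x (s + 1) - x s) ^ 2 := by
    have := sq_sum_le_card_mul_sum_sq (s := range P) (f := fun s => x (s + 1) - x s)
    rw [totx] at this; simpa using this
  have csy : L ^ 2 ≤ Q * ∑ s ∈ range Q, (y s - y (s + 1)) ^ 2 := by
    have := sq_sum_le_card_mul_sum_sq (s := range Q) (f := fun s => y s - y (s + 1))
    rw [toty] at this; simpa using this
  have hPr : (0 : ℝ) < P := by exact_mod_cast hP
  have hQr : (0 : ℝ) < Q := by exact_mod_cast hQ
  have sx : L ^ 2 / P ≤ ∑ s ∈ range P, ∑ t ∈ range Q, lam s t * a s := by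
    calc L ^ 2 / P ≤ ∑ s ∈ range P, (x (s + 1) - x s) ^ 2 := by
          rw [div_le_iff₀ hPr]; linarith
      _ ≤ _ := by
          refine sum_le_sum fun s _ => ?_
          rw [← sum_mul, rowsum]
          have h1 : 0 ≤ x (s + 1) - x s := by linarith [xm s]
          nlinarith [hxa s]
  have sy : L ^ 2 / Q ≤ ∑ s ∈ range P, ∑ t ∈ range Q, lam s t * b t := by
    rw [sum_comm]
    calc L ^ 2 / Q ≤ ∑ s ∈ range Q, (y s - y (s + 1)) ^ 2 := by
          rw [div_le_iff₀ hQr]; linarith
      _ ≤ _ := by
          refine sum_le_sum fun s _ => ?_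
          rw [← sum_mul, colsum]
          have h1 : 0 ≤ y s - y (s + 1) := by linarith [ym s]
          nlinarith [hyb s]
  by_contra hcon
  push Not at hcon
  have key : ∀ s ∈ range P, ∀ t ∈ range Q,
      lam s t * (a s + b t) ≤ lam s t * (L * (1 / P + 1 / Q)) := by
    intro s hs t ht
    rcases (hlam0 s t).eq_or_lt with h | h
    · rw [← h]; simp
    · obtain ⟨h1, h2⟩ := ov_pos h
      refine mul_le_mul_of_nonneg_left ?_ (hlam0 s t)
      refine (hcon s (mem_range.1 hs) t (mem_range.1 ht) ?_).le
      -- x s < y t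
      have hSAs : SA s < L := by
        by_contra hc
        have : x s = L := min_eq_right (not_lt.1 hc)
        have := (yr t).2
        linarith
      have hSBt : SB t < L := by
        by_contra hc
        have : y t = 0 := by simp only [hy]; rw [min_eq_right (not_lt.1 hc)]; ring
        have := (xr s).1
        linarith
      have e1 : x s = SA s := min_eq_left hSAs.le
      have e2 : y t = L - SB t := by simp only [hy]; rw [min_eq_left hSBt.le]
      have : SA s + SB t ≤ L := by linarith
      exact this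
  -- strictness
  have tot : ∑ s ∈ range P, ∑ t ∈ range Q, lam s t = L := by
    rw [← totx]; exact sum_congr rfl fun s _ => rowsum s
  obtain ⟨s0, hs0, hs1⟩ : ∃ s ∈ range P, 0 < ∑ t ∈ range Q, lam s t := by
    by_contra hc
    push Not at hc
    have := sum_nonpos hc
    linarith
  obtain ⟨t0, ht0, ht1⟩ : ∃ t ∈ range Q, 0 < lam s0 t := by
    by_contra hc
    push Not at hc
    have := sum_nonpos hc
    linarith
  have strict : ∑ s ∈ range P, ∑ t ∈ range Q, lam s t * (a s + b t) <
      ∑ s ∈ range P, ∑ t ∈ range Q, lam s t * (L * (1 / P + 1 / Q)) := by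
    refine sum_lt_sum (fun s hs => sum_le_sum (key s hs)) ⟨s0, hs0, ?_⟩
    refine sum_lt_sum (key s0 hs0) ⟨t0, ht0, ?_⟩
    obtain ⟨h1, h2⟩ := ov_pos ht1
    refine mul_lt_mul_of_pos_left ?_ ht1
    refine hcon s0 (mem_range.1 hs0) t0 (mem_range.1 ht0) ?_
    have hSAs : SA s0 < L := by
      by_contra hc
      have : x s0 = L := min_eq_right (not_lt.1 hc)
      have := (yr t0).2
      linarith
    have hSBt : SB t0 < L := by
      by_contra hc
      have : y t0 = 0 := by simp only [hy]; rw [min_eq_right (not_lt.1 hc)]; ring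
      have := (xr s0).1
      linarith
    have e1 : x s0 = SA s0 := min_eq_left hSAs.le
    have e2 : y t0 = L - SB t0 := by simp only [hy]; rw [min_eq_left hSBt.le]
    have : SA s0 + SB t0 ≤ L := by linarith
    exact this
  have e1 : ∑ s ∈ range P, ∑ t ∈ range Q, lam s t * (L * (1 / P + 1 / Q)) =
      L ^ 2 / P + L ^ 2 / Q := by
    simp_rw [← sum_mul]; rw [tot]; field_simp
  have e2 : ∑ s ∈ range P, ∑ t ∈ range Q, lam s t * (a s + b t) =
      ∑ s ∈ range P, ∑ t ∈ range Q, lam s t * a s +
      ∑ s ∈ range P, ∑ t ∈ range Q, lam s t * b t := by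
    simp_rw [mul_add, sum_add_distrib]
  linarith

end Pool.Agent.N594.KR
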