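import Pool.Agent.N594.KR.Defs
import Pool.Agent.N594.KR.Stair

/-!
Combinatorics of walks with bounded products of degrees.
-/

namespace Pool.Agent.N594.KR

open Finset Classical

section Walk

variable {V : Type} (R : V → V → Prop)

theorem reachIn_add {a b : ℕ} {x y z : V} (h1 : ReachIn R a x y) (h2 : ReachIn R b y z) :
    ReachIn R (a + b) x z := by
  induction a generalizing x with
  | zero => simp only [ReachIn] at h1; subst h1; simpa using h2
  | succ a ih =>
    obtain ⟨t, h3, h4⟩ := h1
    have := ih h4
    rw [Nat.succ_add]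
    exact ⟨t, h3, this⟩

theorem reachIn_of_fun (f : ℕ → V) (a b : ℕ) (h : ∀ l, a ≤ l → l < a + b → R (f l) (f (l + 1))) :
    ReachIn R b (f a) (f (a + b)) := by
  induction b generalizing a with
  | zero => rfl
  | succ b ih =>
    refine ⟨f (a + 1), h a le_rfl (by omega), ?_⟩
    have := ih (a + 1) (fun l h1 h2 => h l (by omega) (by omega))
    rw [show a + (b + 1) = a + 1 + b by omega]
    exact this

theorem exists_fun_of_reachIn {b : ℕ} {x y : V} (h : ReachIn R b x y) :
    ∃ f : ℕ → V, f 0 = x ∧ f b = y ∧ ∀ l < b, R (f l) (f (l + 1)) := by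
  induction b generalizing x with
  | zero => exact ⟨fun _ => x, rfl, h, fun l hl => by omega⟩
  | succ b ih =>
    obtain ⟨t, h3, h4⟩ := h
    obtain ⟨f, hf0, hfb, hf⟩ := ih h4
    refine ⟨fun l => if l = 0 then x else f (l - 1), by simp, by simp [hfb], ?_⟩
    intro l hl
    rcases Nat.eq_zero_or_pos l with h0 | h0
    · subst h0; simp [hf0, h3]
    · have : l ≠ 0 := by omega
      have := hf (l - 1) (by omega)
      simp only [show l ≠ 0 by omega, if_false, show l + 1 ≠ 0 by omega]
      rw [show l + 1 - 1 = l - 1 + 1 by omega]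
      exact this

theorem reachIn_flip {b : ℕ} {x y : V} (h : ReachIn (fun x y => R y x) b x y) :
    ReachIn R b y x := by
  induction b generalizing x with
  | zero => exact h.symm
  | succ b ih =>
    obtain ⟨t, h3, h4⟩ := h
    exact reachIn_add R (ih h4) ⟨x, h3, rfl⟩

/-- Reflexive closure. -/
def refl (E : V → V → Prop) (x y : V) : Prop := x = y ∨ E x y

theorem reachWithin_iff (E : V → V → Prop) (k : ℕ) (u v : V) :
    ReachWithin E k u v ↔ ReachIn (refl E) k u v := by
  constructor
  · rintro ⟨j, hj, h⟩
    have h1 : ReachIn (refl E) j u v := by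
      clear hj
      induction j generalizing u with
      | zero => exact h
      | succ j ih =>
        obtain ⟨t, h3, h4⟩ := h
        exact ⟨t, Or.inr h3, ih _ h4⟩
    have h2 : ∀ i, ReachIn (refl E) i v v := by
      intro i
      induction i with
      | zero => rfl
      | succ i ih => exact ⟨v, Or.inl rfl, ih⟩
    have := reachIn_add _ h1 (h2 (k - j))
    rwa [Nat.add_sub_cancel' hj] at this
  · intro h
    induction k generalizing u with
    | zero => exact ⟨0, le_rfl, h⟩
    | succ k ih =>
      obtain ⟨t, h3, h4⟩ := h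
      obtain ⟨j, hj, h5⟩ := ih _ h4
      rcases h3 with rfl | h3
      · exact ⟨j, by omega, h5⟩
      · exact ⟨j + 1, by omega, t, h3, h5⟩

end Walk

section Pre

variable {V : Type} [Fintype V] (R : V → V → Prop)

/-- Out-neighbours. -/
noncomputable def nb (x : V) : Finset V := univ.filter (R x)

/-- Out-degree. -/
noncomputable def deg (x : V) : ℕ := (nb R x).card

/-- End vertices of `s`-step walks from `u` found with budget `τ`. -/
noncomputable def pre : ℕ → ℕ → V → Finset V
  | 0, τ, u => if 1 ≤ τ then {u} else ∅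
  | s + 1, τ, u => (nb R u).biUnion (pre s (τ / deg R u))

theorem card_pre_le (s : ℕ) : ∀ (τ : ℕ) (u : V), (pre R s τ u).card ≤ τ := by
  induction s with
  | zero =>
    intro τ u
    unfold pre
    split_ifs with h
    · simpa using h
    · simp
  | succ s ih =>
    intro τ u
    unfold pre
    refine le_trans card_biUnion_le ?_
    refine le_trans (sum_le_sum (fun x _ => ih _ x)) ?_
    rw [sum_const, smul_eq_mul]
    exact Nat.mul_div_le _ _

theorem reachIn_of_mem_pre (s : ℕ) : ∀ (τ : ℕ) (u x : V), x ∈ pre R s τ u → ReachIn R s u x := by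
  induction s with
  | zero =>
    intro τ u x h
    unfold pre at h
    split_ifs at h with h1
    · simp at h; exact h.symm
    · simp at h
  | succ s ih =>
    intro τ u x h
    unfold pre at h
    simp only [mem_biUnion] at h
    obtain ⟨y, hy, hx⟩ := h
    simp only [nb, mem_filter, mem_univ, true_and] at hy
    exact ⟨y, hy, ih _ _ _ hx⟩

theorem mem_pre (s : ℕ) : ∀ (τ : ℕ) (f : ℕ → V), (∀ l < s, R (f l) (f (l + 1))) →
    ∏ l ∈ range s, deg R (f l) ≤ τ → f s ∈ pre R s τ (f 0) := by
  induction s with
  | zero =>
    intro τ f _ h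
    simp at h
    unfold pre
    rw [if_pos h]; simp
  | succ s ih =>
    intro τ f hf h
    unfold pre
    rw [mem_biUnion]
    have hpos : 0 < deg R (f 0) := card_pos.2 ⟨f 1, by
      simp only [nb, mem_filter, mem_univ, true_and]; exact hf 0 (by omega)⟩
    refine ⟨f 1, ?_, ?_⟩
    · simp only [nb, mem_filter, mem_univ, true_and]; exact hf 0 (by omega)
    · refine ih _ (fun l => f (l + 1)) (fun l hl => hf (l + 1) (by omega)) ?_
      rw [Nat.le_div_iff_mul_le hpos]
      rw [prod_range_succ'] at h
      exact h

end Pre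

end Pool.Agent.N594.KR
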