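import Pool.Agent.N594.KR.Prog3

/-!
The memory image: header, offset table, concatenated lists, powers of two, sorted dictionary.
-/

namespace Pool.Agent.N594.KR

open Pool.Agent.H588R2

section Concat

/-- Offsets of the concatenated lists. -/
def off (ℓ : ℕ → List ℕ) : ℕ → ℕ
  | 0 => 0
  | i + 1 => off ℓ i + (ℓ i).length

/-- Concatenation of the first `N` lists. -/
def cat (ℓ : ℕ → List ℕ) : ℕ → List ℕ
  | 0 => []
  | i + 1 => cat ℓ i ++ ℓ i

theorem length_cat (ℓ : ℕ → List ℕ) (N : ℕ) : (cat ℓ N).length = off ℓ N := by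
  induction N with
  | zero => rfl
  | succ N ih => simp [cat, off, ih]

theorem off_mono (ℓ : ℕ → List ℕ) : Monotone (off ℓ) :=
  monotone_nat_of_le_succ fun i => by simp [off]

theorem getD_cat (ℓ : ℕ → List ℕ) (N : ℕ) {i r : ℕ} (hi : i < N) (hr : r < (ℓ i).length) :
    (cat ℓ N).getD (off ℓ i + r) 0 = (ℓ i).getD r 0 := by
  induction N with
  | zero => omega
  | succ N ih =>
    rcases Nat.lt_or_ge i N with h | h
    · have hlt : off ℓ i + r < (cat ℓ N).length := by
        rw [length_cat]
        have : off ℓ (i + 1) ≤ off ℓ N := off_mono ℓ h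
        simp only [off] at this
        omega
      rw [← ih h]
      simp only [cat, List.getD_eq_getElem?_getD]
      rw [List.getElem?_append_left hlt]
    · have : i = N := by omega
      subst this
      simp only [cat, List.getD_eq_getElem?_getD]
      rw [List.getElem?_append_right (by rw [length_cat]; omega), length_cat]
      congr 2; omega

theorem mem_cat {ℓ : ℕ → List ℕ} {N x : ℕ} (h : x ∈ cat ℓ N) : ∃ i < N, x ∈ ℓ i := by
  induction N with
  | zero => simp [cat] at h
  | succ N ih =>
    simp only [cat, List.mem_append] at h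
    rcases h with h | h
    · obtain ⟨i, hi, hx⟩ := ih h
      exact ⟨i, by omega, hx⟩
    · exact ⟨N, by omega, h⟩

end Concat

/-- The memory image. `N` is the number of lists, `L` the logarithm of the length of the
dictionary array `A`. -/
def image (J NJ N L : ℕ) (ℓ : ℕ → List ℕ) (A : ℕ → ℕ) (i : ℕ) : ℕ :=
  if i < 8 then
    (if i = 0 then J else if i = 1 then NJ else if i = 2 then 9 + N + off ℓ N
      else if i = 3 then 9 + N + off ℓ N + L else 0)
  else if i < 9 + N then 9 + N + off ℓ (i - 8)
  else if i < 9 + N + off ℓ N then (cat ℓ N).getD (i - (9 + N)) 0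
  else if i < 9 + N + off ℓ N + L then 2 ^ (L - 1 - (i - (9 + N + off ℓ N)))
  else if i < 9 + N + off ℓ N + L + 2 ^ L then A (i - (9 + N + off ℓ N + L))
  else 0

section Image

variable {J NJ N L : ℕ} {ℓ : ℕ → List ℕ} {A : ℕ → ℕ}

theorem image_zero : image J NJ N L ℓ A 0 = J := by simp [image]

theorem image_one : image J NJ N L ℓ A 1 = NJ := by simp [image]

theorem image_two : image J NJ N L ℓ A 2 = 9 + N + off ℓ N := by simp [image]

theorem image_three : image J NJ N L ℓ A 3 = 9 + N + off ℓ N + L := by simp [image]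

theorem image_off {i : ℕ} (hi : i ≤ N) : image J NJ N L ℓ A (8 + i) = 9 + N + off ℓ i := by
  unfold image
  rw [if_neg (by omega), if_pos (by omega)]
  congr 2; omega

theorem image_list {i r : ℕ} (hi : i < N) (hr : r < (ℓ i).length) :
    image J NJ N L ℓ A (9 + N + off ℓ i + r) = (ℓ i).getD r 0 := by
  have h1 : off ℓ (i + 1) ≤ off ℓ N := off_mono ℓ hi
  simp only [off] at h1
  unfold image
  rw [if_neg (by omega), if_neg (by omega), if_pos (by omega), ← getD_cat ℓ N hi hr]
  congr 1; omega

theorem image_pow {j : ℕ} (hj : j < L) :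
    image J NJ N L ℓ A (9 + N + off ℓ N + j) = 2 ^ (L - 1 - j) := by
  unfold image
  rw [if_neg (by omega), if_neg (by omega), if_neg (by omega), if_pos (by omega)]
  congr 2; omega

theorem image_A {j : ℕ} (hj : j < 2 ^ L) :
    image J NJ N L ℓ A (9 + N + off ℓ N + L + j) = A j := by
  unfold image
  rw [if_neg (by omega), if_neg (by omega), if_neg (by omega), if_neg (by omega),
    if_pos (by omega)]
  congr 1; omega

theorem image_big {i : ℕ} (hi : 9 + N + off ℓ N + L + 2 ^ L ≤ i) :
    image J NJ N L ℓ A i = 0 := by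
  have hL : 0 < 2 ^ L := by positivity
  unfold image
  rw [if_neg (by omega), if_neg (by omega), if_neg (by omega), if_neg (by omega),
    if_neg (by omega)]

theorem image_lt {w : ℕ} (hJ : J < 2 ^ w) (hNJ : NJ < 2 ^ w)
    (hs : 9 + N + off ℓ N + L + 2 ^ L < 2 ^ w) (hℓ : ∀ i < N, ∀ x ∈ ℓ i, x < 2 ^ w)
    (hA : ∀ i < 2 ^ L, A i < 2 ^ w) (i : ℕ) : image J NJ N L ℓ A i < 2 ^ w := by
  have hpos : 0 < 2 ^ w := by positivity
  have hL : 0 < 2 ^ L := by positivity
  unfold image
  split_ifs with h1 h2 h3 h4 h5 h6 h7 h8 h9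
  · exact hJ
  · exact hNJ
  · omega
  · omega
  · omega
  · have : off ℓ (i - 8) ≤ off ℓ N := off_mono ℓ (by omega)
    omega
  · have hlt : i - (9 + N) < (cat ℓ N).length := by rw [length_cat]; omega
    rw [List.getD_eq_getElem _ _ hlt]
    obtain ⟨j, hj, hx⟩ := mem_cat (List.getElem_mem hlt)
    exact hℓ j hj _ hx
  · refine lt_of_le_of_lt (Nat.pow_le_pow_right (by norm_num) (show _ ≤ L by omega)) ?_
    omega
  · exact hA _ (by omega)
  · exact hpos

end Image

section Dict

/-- The predicate whose increasing enumeration is the dictionary array. -/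
def DictPred (D : Finset ℕ) (B x : ℕ) : Prop := x = 0 ∨ x ∈ D ∨ B ≤ x

/-- The dictionary array: `0`, then the elements of `D`, then `B`, `B + 1`, .... -/
noncomputable def dictArr (D : Finset ℕ) (B : ℕ) : ℕ → ℕ := Nat.nth (DictPred D B)

variable {D : Finset ℕ} {B : ℕ}

theorem dictPred_infinite : ({x | DictPred D B x} : Set ℕ).Infinite := by
  refine Set.infinite_of_not_bddAbove ?_
  rintro ⟨b, hb⟩
  have := hb (show b + B + 1 ∈ {x | DictPred D B x} from Or.inr (Or.inr (by omega)))
  omega

theorem dictArr_mono : Monotone (dictArr D B) :=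
  (Nat.nth_strictMono dictPred_infinite).monotone

theorem dictArr_zero : dictArr D B 0 = 0 := by
  unfold dictArr
  exact Nat.nth_zero_of_zero (Or.inl rfl)

theorem exists_dictArr_iff {x : ℕ} (h0 : 0 < x) (hB : x < B) :
    (∃ i, dictArr D B i = x) ↔ x ∈ D := by
  have : (∃ i, dictArr D B i = x) ↔ x ∈ Set.range (Nat.nth (DictPred D B)) := Iff.rfl
  rw [this, Nat.range_nth_of_infinite dictPred_infinite]
  simp only [Set.mem_ofPred_eq, DictPred]
  constructor
  · rintro (h | h | h)
    · omega
    · exact h
    · omega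
  · intro h; exact Or.inr (Or.inl h)

theorem le_dictArr {m : ℕ} (hm : D.card + 1 ≤ m) : B ≤ dictArr D B m := by
  classical
  unfold dictArr
  rw [← Nat.count_le_iff_le_nth dictPred_infinite]
  refine le_trans ?_ hm
  rw [Nat.count_eq_card_filter_range]
  calc ((Finset.range B).filter (DictPred D B)).card ≤ (insert 0 D).card := by
        apply Finset.card_le_card
        intro x hx
        simp only [Finset.mem_filter, Finset.mem_range, DictPred] at hx
        simp only [Finset.mem_insert]
        rcases hx.2 with h | h | h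
        · exact Or.inl h
        · exact Or.inr h
        · omega
    _ ≤ D.card + 1 := Finset.card_insert_le _ _

theorem dictArr_le (i : ℕ) : dictArr D B i ≤ B + i := by
  classical
  unfold dictArr
  have : i < Nat.count (DictPred D B) (B + i + 1) := by
    rw [Nat.count_eq_card_filter_range]
    calc i < (Finset.Ico B (B + i + 1)).card := by simp; omega
      _ ≤ ((Finset.range (B + i + 1)).filter (DictPred D B)).card := by
        apply Finset.card_le_card
        intro x hx
        simp only [Finset.mem_Ico] at hx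
        simp only [Finset.mem_filter, Finset.mem_range, DictPred]
        exact ⟨hx.2, Or.inr (Or.inr hx.1)⟩
  have := Nat.nth_lt_of_lt_count this
  omega

end Dict

end Pool.Agent.N594.KR
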