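import Pool.Agent.N594.KR.Tradeoff
import Pool.Agent.N594.KR.Asym

/-!
The refutation of the conjectured lower bound for every `k ≥ 3`.
-/

namespace Pool.Agent.N594.KR

open Pool.Agent.H588R2 Filter

theorem refutation (k C : ℕ) (hk : 3 ≤ k) (δ : ℝ) (hδ : 0 < δ) :
    ∃ (b : ℕ) (S T : ℕ → ℝ), IsOracle k C b prog S T ∧
      (∀ᶠ n : ℕ in atTop, T n ≤ (n : ℝ) ^ δ) ∧
      (∀ᶠ n : ℕ in atTop, S n * T n ^ gam k ≤ (n : ℝ) ^ 2 * Real.log n ^ 5) ∧
      ∀ c : ℝ, ∀ᶠ n : ℕ in atTop,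
        S n * T n ^ (2 / ((k : ℝ) - 1)) < (n : ℝ) ^ 2 / Real.log n ^ c := by
  obtain ⟨b, K, hK, h⟩ := tradeoff k C (by omega)
  obtain ⟨α, hα⟩ : ∃ α : ℝ, α = 2 / ((k : ℝ) - 1) := ⟨_, rfl⟩
  obtain ⟨γ, hγ⟩ : ∃ γ : ℝ, γ = gam k := ⟨_, rfl⟩
  have hαγ : α < γ := by rw [hα, hγ]; exact gam_gt hk
  have hk3 : (3 : ℝ) ≤ k := by exact_mod_cast hk
  have hα0 : 0 ≤ α := by rw [hα]; apply div_nonneg <;> linarith
  obtain ⟨d, hd⟩ : ∃ d : ℝ, d = min (δ / 2) (1 / (2 * (k : ℝ) + 2)) := ⟨_, rfl⟩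
  have hd0 : 0 < d := by rw [hd]; exact lt_min (by linarith) (by positivity)
  have hd1 : d ≤ δ / 2 := by rw [hd]; exact min_le_left _ _
  have hd2 : d ≤ 1 / (2 * (k : ℝ) + 2) := by rw [hd]; exact min_le_right _ _
  have hτ : ∀ n : ℕ, 1 ≤ n → 1 ≤ (n : ℝ) ^ d ∧ ((n : ℝ) ^ d) ^ (2 * k + 2) ≤ n := by
    intro n hn
    have hn1 : (1 : ℝ) ≤ n := by exact_mod_cast hn
    refine ⟨Real.one_le_rpow hn1 hd0.le, ?_⟩
    rw [← Real.rpow_natCast, ← Real.rpow_mul (by positivity)]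
    calc (n : ℝ) ^ (d * ((2 * k + 2 : ℕ) : ℝ)) ≤ (n : ℝ) ^ (1 : ℝ) := by
          apply Real.rpow_le_rpow_of_exponent_le hn1
          push_cast
          calc d * (2 * (k : ℝ) + 2) ≤ 1 / (2 * (k : ℝ) + 2) * (2 * (k : ℝ) + 2) := by
                gcongr
            _ = 1 := by field_simp
      _ = n := Real.rpow_one _
  refine ⟨b, _, _, h (fun n => (n : ℝ) ^ d) hτ, ?_, ?_, ?_⟩
  · filter_upwards [log_pow_mul_small 2 (show 0 < δ / 2 by linarith) K, eventually_ge_atTop 1]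
      with n hn hn1
    have hn1' : (1 : ℝ) ≤ n := by exact_mod_cast hn1
    have hp : 0 < (n : ℝ) ^ d := by positivity
    rw [show ((2 : ℝ)) = ((2 : ℕ) : ℝ) by norm_num, Real.rpow_natCast] at hn
    have e2 : ((2 : ℕ) : ℝ) = 2 := by norm_num
    rw [e2] at hn
    calc K * (n : ℝ) ^ d * Real.log ((n : ℝ) + 2) ^ 2
        = (n : ℝ) ^ d * (K * Real.log ((n : ℝ) + 2) ^ 2) := by ring
      _ ≤ (n : ℝ) ^ (δ / 2) * (n : ℝ) ^ (δ / 2) := by
          gcongr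
      _ = (n : ℝ) ^ δ := by
          rw [← Real.rpow_add (by positivity)]; congr 1; ring
  · rw [← hγ]
    have hγ2 : γ ≤ 2 := by rw [hγ]; exact gam_le_two (by omega)
    have hlogev : ∀ᶠ n : ℕ in atTop, 16 * (K * K ^ γ) ≤ Real.log n :=
      (Real.tendsto_log_atTop.comp tendsto_natCast_atTop_atTop).eventually
        (eventually_ge_atTop (16 * (K * K ^ γ)))
    filter_upwards [hlogev, eventually_ge_atTop 3] with n hn hn3
    have hn3' : (3 : ℝ) ≤ n := by exact_mod_cast hn3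
    have hnpos : (0 : ℝ) < n := by linarith
    obtain ⟨ℓ, hℓ⟩ : ∃ ℓ, ℓ = Real.log ((n : ℝ) + 2) := ⟨_, rfl⟩
    rw [← hℓ]
    have hln1 : 1 ≤ Real.log n := by
      rw [Real.le_log_iff_exp_le hnpos]
      have := Real.exp_one_lt_d9
      linarith
    have hln2 : Real.log n ≤ ℓ := by rw [hℓ]; exact Real.log_le_log hnpos (by linarith)
    have hln3 : ℓ ≤ 2 * Real.log n := by
      rw [hℓ, show 2 * Real.log n = Real.log ((n : ℝ) ^ 2) by rw [Real.log_pow]; norm_num]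
      exact Real.log_le_log (by linarith) (by nlinarith)
    have hℓpos : 0 < ℓ := by linarith
    have hnd : 0 < (n : ℝ) ^ d := by positivity
    have e1 : (K * (n : ℝ) ^ d * ℓ ^ 2) ^ γ = K ^ γ * ((n : ℝ) ^ d) ^ γ * ℓ ^ (2 * γ) := by
      rw [Real.mul_rpow (by positivity) (by positivity), Real.mul_rpow hK.le (by positivity),
        ← Real.rpow_natCast ℓ 2, ← Real.rpow_mul hℓpos.le]
      norm_num
    have h4 : ℓ ^ (2 * γ) ≤ 16 * Real.log n ^ 4 := by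
      calc ℓ ^ (2 * γ) ≤ ℓ ^ ((4 : ℕ) : ℝ) := by
            apply Real.rpow_le_rpow_of_exponent_le (by linarith)
            push_cast; linarith
        _ = ℓ ^ 4 := Real.rpow_natCast _ _
        _ ≤ (2 * Real.log n) ^ 4 := by gcongr
        _ = _ := by ring
    have hp1 : 0 < ((n : ℝ) ^ d) ^ γ := by positivity
    rw [e1]
    calc K * (n : ℝ) ^ 2 / ((n : ℝ) ^ d) ^ γ * (K ^ γ * ((n : ℝ) ^ d) ^ γ * ℓ ^ (2 * γ))
        = (n : ℝ) ^ 2 * (K * K ^ γ * ℓ ^ (2 * γ)) := by field_simp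
      _ ≤ (n : ℝ) ^ 2 * (K * K ^ γ * (16 * Real.log n ^ 4)) := by gcongr
      _ = (n : ℝ) ^ 2 * (16 * (K * K ^ γ) * Real.log n ^ 4) := by ring
      _ ≤ (n : ℝ) ^ 2 * (Real.log n * Real.log n ^ 4) := by gcongr
      _ = _ := by ring
  · intro c
    rw [← hα, ← hγ]
    have hε : 0 < d * (γ - α) := mul_pos hd0 (by linarith)
    filter_upwards [log_pow_mul_small (2 * α + |c|) hε (K * K ^ α), eventually_ge_atTop 3]
      with n hn hn3
    have hn3' : (3 : ℝ) ≤ n := by exact_mod_cast hn3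
    have hnpos : (0 : ℝ) < n := by linarith
    obtain ⟨ℓ, hℓ⟩ : ∃ ℓ, ℓ = Real.log ((n : ℝ) + 2) := ⟨_, rfl⟩
    rw [← hℓ] at hn ⊢
    have hln1 : 1 ≤ Real.log n := by
      rw [Real.le_log_iff_exp_le hnpos]
      have := Real.exp_one_lt_d9
      linarith
    have hln2 : Real.log n ≤ ℓ := by rw [hℓ]; exact Real.log_le_log hnpos (by linarith)
    have hℓpos : 0 < ℓ := by linarith
    have hcpos : 0 < Real.log n ^ c := Real.rpow_pos_of_pos (by linarith) _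
    have hc : Real.log n ^ c ≤ ℓ ^ |c| := by
      calc Real.log n ^ c ≤ Real.log n ^ |c| :=
            Real.rpow_le_rpow_of_exponent_le hln1 (le_abs_self c)
        _ ≤ ℓ ^ |c| := Real.rpow_le_rpow (by linarith) hln2 (abs_nonneg _)
    have hnd : 0 < (n : ℝ) ^ d := by positivity
    rw [lt_div_iff₀ hcpos]
    have e1 : (K * (n : ℝ) ^ d * ℓ ^ 2) ^ α = K ^ α * (n : ℝ) ^ (d * α) * ℓ ^ (2 * α) := by
      rw [Real.mul_rpow (by positivity) (by positivity), Real.mul_rpow hK.le (by positivity),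
        ← Real.rpow_mul (by positivity), ← Real.rpow_natCast ℓ 2, ← Real.rpow_mul hℓpos.le]
      norm_num
    have e2 : ((n : ℝ) ^ d) ^ γ = (n : ℝ) ^ (d * γ) := by rw [← Real.rpow_mul (by positivity)]
    have e3 : (n : ℝ) ^ (d * γ) = (n : ℝ) ^ (d * α) * (n : ℝ) ^ (d * (γ - α)) := by
      rw [← Real.rpow_add hnpos]; congr 1; ring
    have hp1 : 0 < (n : ℝ) ^ (d * α) := by positivity
    have hp2 : 0 < (n : ℝ) ^ (d * (γ - α)) := by positivity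
    rw [e1, e2, e3]
    calc K * (n : ℝ) ^ 2 / ((n : ℝ) ^ (d * α) * (n : ℝ) ^ (d * (γ - α))) *
          (K ^ α * (n : ℝ) ^ (d * α) * ℓ ^ (2 * α)) * Real.log n ^ c
        ≤ K * (n : ℝ) ^ 2 / ((n : ℝ) ^ (d * α) * (n : ℝ) ^ (d * (γ - α))) *
          (K ^ α * (n : ℝ) ^ (d * α) * ℓ ^ (2 * α)) * ℓ ^ |c| := by gcongr
      _ = (n : ℝ) ^ 2 * (K * K ^ α * ℓ ^ (2 * α + |c|)) / (n : ℝ) ^ (d * (γ - α)) := by
          rw [Real.rpow_add hℓpos]; field_simp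
      _ < (n : ℝ) ^ 2 * (n : ℝ) ^ (d * (γ - α)) / (n : ℝ) ^ (d * (γ - α)) := by
          gcongr
      _ = (n : ℝ) ^ 2 := by field_simp

end Pool.Agent.N594.KR
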