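import Pool.Agent.H588R2.Ram

/-!
The query program of the bounded-length reachability oracle, and its running time.
-/

namespace Pool.Agent.N594.KR

open Pool.Agent.H588R2

theorem set_reg' (s : St) (d v x : ℕ) :
    (s.set d v).reg x = if x = d then v else s.reg x := by
  simp [St.set, Function.update_apply]

/-- Body of the binary search loop. -/
def searchBody : Cmd :=
  .seq (.op (.load 18 17)) <| .seq (.op (.add 18 16 18)) <| .seq (.op (.load 19 18)) <|
  .seq (.ite 15 19 .skip (.op (.add 16 18 22))) (.op (.add 17 17 2))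

/-- Binary search. -/
def search : Cmd :=
  .seq (.op (.add 16 5 22)) <| .seq (.op (.add 17 4 22)) (.loop 17 5 searchBody)

/-- Body of the innermost list loop. -/
def qBody : Cmd :=
  .seq (.op (.load 15 13)) <| .seq (.op (.add 15 14 15)) <| .seq search <|
  .seq (.op (.load 19 16)) <| .seq (.ite 19 15 .skip (.op (.const 20 1))) (.op (.add 13 13 2))

/-- Body of the loop over the first list. -/
def pBody : Cmd :=
  .seq (.op (.load 14 9)) <| .seq (.op (.add 13 11 22)) <| .seq (.loop 13 12 qBody)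
    (.op (.add 9 9 2))

/-- Body of the loop over the levels. -/
def jBody : Cmd :=
  .seq (.op (.load 9 6)) <| .seq (.op (.add 6 6 2)) <| .seq (.op (.load 10 6)) <|
  .seq (.op (.load 11 8)) <| .seq (.op (.add 8 8 2)) <| .seq (.op (.load 12 8))
    (.loop 9 10 pBody)

/-- The query program (structured form). -/
def queryCmd : Cmd :=
  .seq (.op (.const 2 1)) <| .seq (.op (.const 21 0)) <| .seq (.op (.const 22 0)) <|
  .seq (.op (.load 3 21)) <| .seq (.op (.load 8 2)) <| .seq (.op (.const 21 2)) <|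
  .seq (.op (.load 4 21)) <| .seq (.op (.const 21 3)) <| .seq (.op (.load 5 21)) <|
  .seq (.op (.const 21 8)) <| .seq (.op (.mul 6 0 3)) <| .seq (.op (.add 6 6 21)) <|
  .seq (.op (.add 7 6 3)) <| .seq (.op (.mul 9 1 3)) <| .seq (.op (.add 8 8 9)) <|
  .seq (.op (.add 8 8 21)) <| .seq (.op (.const 20 0)) <| .seq (.loop 6 7 jBody)
    (.op (.add 0 20 22))

/-- The query program. -/
def prog : List Instr := queryCmd.compile 0

/-- The facts about the memory used by the binary search. -/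
structure SearchMem (w : ℕ) (M : ℕ → ℕ) (pb L : ℕ) (A : ℕ → ℕ) : Prop where
  hM : ∀ i, M i < 2 ^ w
  hpw : ∀ j, j < L → M (pb + j) = 2 ^ (L - 1 - j)
  hA : ∀ i, i < 2 ^ L → M (pb + L + i) = A i
  mono : Monotone A
  zero : A 0 = 0
  size : pb + L + 2 ^ L < 2 ^ w

theorem runs_searchBody {w : ℕ} {M : ℕ → ℕ} {pb L : ℕ} {A : ℕ → ℕ}
    (h : SearchMem w M pb L A) {s : St} {j P X : ℕ} (hj : j < L)
    (hm : s.mem = M) (h2 : s.reg 2 = 1) (h22 : s.reg 22 = 0) (h15 : s.reg 15 = X)
    (h16 : s.reg 16 = pb + L + P) (h17 : s.reg 17 = pb + j)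
    (hP : P + 2 ^ (L - j) ≤ 2 ^ L) (hX1 : A P ≤ X) (hX2 : X < A (P + 2 ^ (L - j))) :
    Runs w searchBody s (fun s' t => Same {16, 17, 18, 19} s s' ∧ s'.reg 17 = pb + (j + 1) ∧
      (∃ P', s'.reg 16 = pb + L + P' ∧ P' + 2 ^ (L - (j + 1)) ≤ 2 ^ L ∧ A P' ≤ X ∧
        X < A (P' + 2 ^ (L - (j + 1)))) ∧ t ≤ 7) := by
  have e1 : L - 1 - j = L - (j + 1) := by omega
  have e2 : L - j = (L - (j + 1)) + 1 := by omega
  have e3 : 2 ^ (L - j) = 2 ^ (L - (j + 1)) + 2 ^ (L - (j + 1)) := by rw [e2, pow_succ]; omega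
  have hpos : 0 < 2 ^ (L - (j + 1)) := by positivity
  have hlt : P + 2 ^ (L - (j + 1)) < 2 ^ L := by omega
  have hsz := h.size
  have hld : M (pb + j) = 2 ^ (L - (j + 1)) := by rw [h.hpw j hj, e1]
  have hAc : M (pb + L + (P + 2 ^ (L - (j + 1)))) = A (P + 2 ^ (L - (j + 1))) := h.hA _ hlt
  have hjs : pb + j + 1 < 2 ^ w := by omega
  unfold searchBody
  refine Runs.seq (Runs.load (by rw [hm]; exact h.hM _) ?_)
  refine Runs.seq (Runs.add ?_ ?_)
  · simp only [set_reg', hm, h17, hld, h16]; norm_num; omega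
  refine Runs.seq (Runs.load (by simp only [St.set_mem]; rw [hm]; exact h.hM _) ?_)
  simp only [set_reg', St.set_mem, hm, h17, hld, h16]
  norm_num
  rw [Nat.add_assoc, hAc]
  refine Runs.seq (Runs.ite ?_ ?_)
  · intro hc
    simp only [set_reg', h15] at hc
    norm_num at hc
    refine Runs.skip (Runs.add ?_ ?_)
    · simp only [set_reg', h17, h2]; norm_num; omega
    · refine ⟨?_, ?_, ⟨P, ?_, ?_, hX1, hc⟩, by norm_num⟩
      · exact (((Same.refl _ s).set (by simp) _).set (by simp) _).set (by simp) _ |>.set (by simp) _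
      · simp only [set_reg', h17, h2]; norm_num; omega
      · simp only [set_reg', h16]; norm_num
      · omega
  · intro hc
    simp only [set_reg', h15] at hc
    norm_num at hc
    refine Runs.add ?_ ?_
    · simp only [set_reg', h22]; norm_num; omega
    · refine Runs.add ?_ ?_
      · simp only [set_reg', h17, h2]; norm_num; omega
      · refine ⟨?_, ?_, ⟨P + 2 ^ (L - (j + 1)), ?_, ?_, hc, ?_⟩, by norm_num⟩
        · exact ((((Same.refl _ s).set (by simp) _).set (by simp) _).set (by simp) _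
            |>.set (by simp) _).set (by simp) _
        · simp only [set_reg', h17, h2]; norm_num; omega
        · simp only [set_reg', h22]; norm_num
        · omega
        · rw [Nat.add_assoc, ← e3]; exact hX2

theorem runs_search {w : ℕ} {M : ℕ → ℕ} {pb L : ℕ} {A : ℕ → ℕ}
    (h : SearchMem w M pb L A) {s : St} {X : ℕ}
    (hm : s.mem = M) (h2 : s.reg 2 = 1) (h22 : s.reg 22 = 0) (h15 : s.reg 15 = X)
    (h4 : s.reg 4 = pb) (h5 : s.reg 5 = pb + L) (hX : X < A (2 ^ L)) :
    Runs w search s (fun s' t => Same {16, 17, 18, 19} s s' ∧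
      (∃ P, s'.reg 16 = pb + L + P ∧ P < 2 ^ L ∧ A P ≤ X ∧ X < A (P + 1)) ∧ t ≤ 9 * L + 4) := by
  have hsz := h.size
  have hone := Nat.one_le_two_pow (n := L)
  unfold search
  refine Runs.seq (Runs.add ?_ ?_)
  · simp only [h5, h22]; omega
  refine Runs.seq (Runs.add ?_ ?_)
  · simp only [set_reg', h4, h22]; norm_num; omega
  have hS0 : Same {16, 17, 18, 19} s
      ((s.set 16 (s.reg 5 + s.reg 22)).set 17
        ((s.set 16 (s.reg 5 + s.reg 22)).reg 4 + (s.set 16 (s.reg 5 + s.reg 22)).reg 22)) :=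
    ((Same.refl _ s).set (by simp) _).set (by simp) _
  refine Runs.loop L (fun j s' τ => Same {16, 17, 18, 19} s s' ∧ s'.reg 17 = pb + j ∧
      (∃ P, s'.reg 16 = pb + L + P ∧ P + 2 ^ (L - j) ≤ 2 ^ L ∧ A P ≤ X ∧
        X < A (P + 2 ^ (L - j))) ∧ τ ≤ 9 * j) ?_ ?_ ?_ ?_
  · rintro j s' τ hj ⟨hS, h17, ⟨P, h16, hP, hX1, hX2⟩, hτ⟩
    have g5 : s'.reg 5 = pb + L := by rw [hS.2 5 (by simp), h5]
    refine ⟨by rw [h17, g5]; omega, ?_⟩
    refine (runs_searchBody h hj (by rw [hS.1, hm]) (by rw [hS.2 2 (by simp), h2])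
      (by rw [hS.2 22 (by simp), h22]) (by rw [hS.2 15 (by simp), h15]) h16 h17 hP hX1 hX2).mono ?_
    rintro s'' t ⟨hS', h17', hex, ht⟩
    exact ⟨hS.trans hS', h17', hex, by omega⟩
  · rintro s' τ ⟨hS, h17, -, -⟩
    have g5 : s'.reg 5 = pb + L := by rw [hS.2 5 (by simp), h5]
    rw [h17, g5]; omega
  · refine ⟨hS0, ?_, ⟨0, ?_, ?_, ?_, ?_⟩, by omega⟩
    · simp only [set_reg', h4, h22]; norm_num
    · simp only [set_reg', h5, h22]; norm_num
    · simp
    · rw [h.zero]; omega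
    · simpa using hX
  · rintro s' τ ⟨hS, h17, ⟨P, h16, hP, hX1, hX2⟩, hτ⟩
    refine ⟨hS, ⟨P, h16, ?_, hX1, ?_⟩, by omega⟩
    · simp at hP; omega
    · simpa using hX2

end Pool.Agent.N594.KR
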