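import Pool.Agent.N594.KR.Prog

/-!
Correctness and running time of the query program.
-/

namespace Pool.Agent.N594.KR

open Pool.Agent.H588R2

/-- `x` is the truth value of `H`. -/
def Flag (x : ℕ) (H : Prop) : Prop := (x = 1 ∧ H) ∨ (x = 0 ∧ ¬ H)

theorem Flag.congr {x : ℕ} {H H' : Prop} (h : Flag x H) (e : H ↔ H') : Flag x H' := by
  unfold Flag at *; rwa [← e]

theorem Flag.or_left {H H' : Prop} (x : ℕ) (h' : H') (_ : Flag x H) : Flag 1 (H ∨ H') :=
  Or.inl ⟨rfl, Or.inr h'⟩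

theorem Flag.or_right {x : ℕ} {H H' : Prop} (h : Flag x H) (h' : ¬ H') : Flag x (H ∨ H') := by
  unfold Flag at *; tauto

theorem runs_qBody {w : ℕ} {M : ℕ → ℕ} {pb L : ℕ} {A : ℕ → ℕ}
    (h : SearchMem w M pb L A) {s : St} {a q : ℕ} {H : Prop}
    (hm : s.mem = M) (h2 : s.reg 2 = 1) (h22 : s.reg 22 = 0)
    (h4 : s.reg 4 = pb) (h5 : s.reg 5 = pb + L) (h13 : s.reg 13 = q) (h14 : s.reg 14 = a)
    (h20 : Flag (s.reg 20) H) (hX : a + M q < A (2 ^ L)) (hXw : a + M q < 2 ^ w)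
    (hq : q + 1 < 2 ^ w) :
    Runs w qBody s (fun s' t => Same {13, 15, 16, 17, 18, 19, 20} s s' ∧ s'.reg 13 = q + 1 ∧
      Flag (s'.reg 20) (H ∨ ∃ i, A i = a + M q) ∧ t ≤ 9 * L + 11) := by
  have hsz := h.size
  unfold qBody
  refine Runs.seq (Runs.load (by rw [hm]; exact h.hM _) ?_)
  refine Runs.seq (Runs.add ?_ ?_)
  · simp only [set_reg', hm, h13, h14]; norm_num; exact hXw
  simp only [set_reg', hm, h13, h14]
  norm_num
  set s1 := (s.set 15 (M q)).set 15 (a + M q) with hs1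
  have hS1 : Same {13, 15, 16, 17, 18, 19, 20} s s1 :=
    ((Same.refl _ s).set (by simp) _).set (by simp) _
  have g15 : s1.reg 15 = a + M q := by rw [hs1]; simp
  refine Runs.seq ((runs_search h (s := s1) (X := a + M q) (by rw [hS1.1, hm])
    (by rw [hs1]; simp [set_reg', h2]) (by rw [hs1]; simp [set_reg', h22]) g15
    (by rw [hs1]; simp [set_reg', h4]) (by rw [hs1]; simp [set_reg', h5]) hX).mono ?_)
  rintro s2 t ⟨hS2, ⟨P, h16, hP, hA1, hA2⟩, ht⟩
  have hS12 : Same {13, 15, 16, 17, 18, 19, 20} s s2 := hS1.trans (hS2.mono (by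
    intro x hx; simp only [Set.mem_insert_iff, Set.mem_singleton_iff] at hx ⊢; omega))
  have g13 : s2.reg 13 = q := by
    rw [hS2.2 13 (by simp), hs1]; simp [set_reg', h13]
  have g2 : s2.reg 2 = 1 := by rw [hS12.2 2 (by simp), h2]
  have g20 : s2.reg 20 = s.reg 20 := by
    rw [hS2.2 20 (by simp), hs1]; simp [set_reg']
  have g15' : s2.reg 15 = a + M q := by rw [hS2.2 15 (by simp), g15]
  have gm : s2.mem = M := by rw [hS12.1, hm]
  refine Runs.seq (Runs.load (by rw [gm]; exact h.hM _) ?_)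
  rw [gm, h16, h.hA P hP]
  refine Runs.seq (Runs.ite ?_ ?_)
  · intro hc
    simp only [set_reg', g15'] at hc
    norm_num at hc
    refine Runs.skip (Runs.add ?_ ?_)
    · simp only [set_reg', g13, g2]; norm_num; exact hq
    · refine ⟨?_, ?_, ?_, by omega⟩
      · exact (hS12.set (by simp) _).set (by simp) _
      · simp only [set_reg', g13, g2]; norm_num
      · simp only [set_reg', g20]
        norm_num
        refine h20.or_right ?_
        rintro ⟨i, hi⟩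
        rcases Nat.lt_or_ge P i with hlt | hge
        · have := h.mono (show P + 1 ≤ i from hlt); omega
        · have := h.mono hge; omega
  · intro hc
    simp only [set_reg', g15'] at hc
    norm_num at hc
    have hone : 1 < 2 ^ w := by omega
    refine Runs.const hone ?_
    refine Runs.add ?_ ?_
    · simp only [set_reg', g13, g2]; norm_num; exact hq
    · refine ⟨?_, ?_, ?_, by omega⟩
      · exact ((hS12.set (by simp) _).set (by simp) _).set (by simp) _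
      · simp only [set_reg', g13, g2]; norm_num
      · simp only [set_reg']
        norm_num
        exact Flag.or_left _ ⟨P, by omega⟩ h20

theorem runs_qLoop {w : ℕ} {M : ℕ → ℕ} {pb L : ℕ} {A : ℕ → ℕ}
    (h : SearchMem w M pb L A) {s : St} {a q0 N : ℕ} {H : Prop}
    (hm : s.mem = M) (h2 : s.reg 2 = 1) (h22 : s.reg 22 = 0)
    (h4 : s.reg 4 = pb) (h5 : s.reg 5 = pb + L) (h13 : s.reg 13 = q0) (h14 : s.reg 14 = a)
    (h12 : s.reg 12 = q0 + N)
    (h20 : Flag (s.reg 20) H)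
    (hX : ∀ q, q0 ≤ q → q < q0 + N → a + M q < A (2 ^ L) ∧ a + M q < 2 ^ w)
    (hq : q0 + N < 2 ^ w) :
    Runs w (.loop 13 12 qBody) s (fun s' t => Same {13, 15, 16, 17, 18, 19, 20} s s' ∧
      Flag (s'.reg 20) (H ∨ ∃ q, q0 ≤ q ∧ q < q0 + N ∧ ∃ i, A i = a + M q) ∧
      t ≤ N * (9 * L + 13) + 2) := by
  refine Runs.loop N (fun i s' τ => Same {13, 15, 16, 17, 18, 19, 20} s s' ∧
      s'.reg 13 = q0 + i ∧
      Flag (s'.reg 20) (H ∨ ∃ q, q0 ≤ q ∧ q < q0 + i ∧ ∃ i, A i = a + M q) ∧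
      τ ≤ i * (9 * L + 13)) ?_ ?_ ?_ ?_
  · rintro i s' τ hi ⟨hS, g13, g20, hτ⟩
    have g12 : s'.reg 12 = q0 + N := by rw [hS.2 12 (by simp), h12]
    refine ⟨by omega, ?_⟩
    refine (runs_qBody h (by rw [hS.1, hm]) (by rw [hS.2 2 (by simp), h2])
      (by rw [hS.2 22 (by simp), h22]) (by rw [hS.2 4 (by simp), h4])
      (by rw [hS.2 5 (by simp), h5]) g13 (by rw [hS.2 14 (by simp), h14]) g20
      (hX _ (by omega) (by omega)).1 (hX _ (by omega) (by omega)).2 (by omega)).mono ?_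
    rintro s'' t ⟨hS', g13', g20', ht⟩
    refine ⟨hS.trans hS', g13', g20'.congr ?_, by nlinarith⟩
    constructor
    · rintro ((hH | ⟨q, hq1, hq2, hq3⟩) | ⟨r, hr⟩)
      · exact Or.inl hH
      · exact Or.inr ⟨q, hq1, by omega, hq3⟩
      · exact Or.inr ⟨q0 + i, by omega, by omega, r, hr⟩
    · rintro (hH | ⟨q, hq1, hq2, hq3⟩)
      · exact Or.inl (Or.inl hH)
      · rcases Nat.lt_or_ge q (q0 + i) with h' | h'
        · exact Or.inl (Or.inr ⟨q, hq1, h', hq3⟩)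
        · have : q = q0 + i := by omega
          subst this
          exact Or.inr hq3
  · rintro s' τ ⟨hS, g13, -, -⟩
    rw [g13, hS.2 12 (by simp), h12]; omega
  · refine ⟨Same.refl _ _, by simpa using h13, h20.congr ?_, by omega⟩
    constructor
    · exact Or.inl
    · rintro (hH | ⟨q, hq1, hq2, -⟩)
      · exact hH
      · omega
  · rintro s' τ ⟨hS, g13, g20, hτ⟩
    exact ⟨hS, g20, by omega⟩

theorem runs_pBody {w : ℕ} {M : ℕ → ℕ} {pb L : ℕ} {A : ℕ → ℕ}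
    (h : SearchMem w M pb L A) {s : St} {p q0 N : ℕ} {H : Prop}
    (hm : s.mem = M) (h2 : s.reg 2 = 1) (h22 : s.reg 22 = 0)
    (h4 : s.reg 4 = pb) (h5 : s.reg 5 = pb + L) (h9 : s.reg 9 = p) (h11 : s.reg 11 = q0)
    (h12 : s.reg 12 = q0 + N)
    (h20 : Flag (s.reg 20) H)
    (hX : ∀ q, q0 ≤ q → q < q0 + N → M p + M q < A (2 ^ L) ∧ M p + M q < 2 ^ w)
    (hq : q0 + N < 2 ^ w) (hp : p + 1 < 2 ^ w) :
    Runs w pBody s (fun s' t => Same {9, 13, 14, 15, 16, 17, 18, 19, 20} s s' ∧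
      s'.reg 9 = p + 1 ∧
      Flag (s'.reg 20) (H ∨ ∃ q, q0 ≤ q ∧ q < q0 + N ∧ ∃ i, A i = M p + M q) ∧
      t ≤ N * (9 * L + 13) + 5) := by
  unfold pBody
  refine Runs.seq (Runs.load (by rw [hm]; exact h.hM _) ?_)
  refine Runs.seq (Runs.add ?_ ?_)
  · simp only [set_reg', h11, h22]; norm_num; omega
  simp only [set_reg', hm, h9, h11, h22]
  norm_num
  set s1 := (s.set 14 (M p)).set 13 q0 with hs1
  have hS1 : Same {9, 13, 14, 15, 16, 17, 18, 19, 20} s s1 :=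
    ((Same.refl _ s).set (by simp) _).set (by simp) _
  refine Runs.seq ((runs_qLoop h (s := s1) (a := M p) (q0 := q0) (N := N) (H := H)
    (by rw [hS1.1, hm])
    (by rw [hs1]; simp [set_reg', h2]) (by rw [hs1]; simp [set_reg', h22])
    (by rw [hs1]; simp [set_reg', h4]) (by rw [hs1]; simp [set_reg', h5])
    (by rw [hs1]; simp [set_reg']) (by rw [hs1]; simp [set_reg'])
    (by rw [hs1]; simp [set_reg', h12]) (by rw [hs1]; simpa [set_reg'] using h20)
    hX hq).mono ?_)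
  rintro s2 t ⟨hS2, g20, ht⟩
  have hS12 : Same {9, 13, 14, 15, 16, 17, 18, 19, 20} s s2 := hS1.trans (hS2.mono (by
    intro x hx; simp only [Set.mem_insert_iff, Set.mem_singleton_iff] at hx ⊢; omega))
  have g9 : s2.reg 9 = p := by rw [hS2.2 9 (by simp), hs1]; simp [set_reg', h9]
  have g2 : s2.reg 2 = 1 := by rw [hS12.2 2 (by simp), h2]
  refine Runs.add ?_ ?_
  · rw [g9, g2]; exact hp
  · refine ⟨hS12.set (by simp) _, ?_, ?_, by omega⟩
    · simp only [set_reg', g9, g2]; norm_num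
    · simp only [set_reg']; norm_num; exact g20

theorem runs_pLoop {w : ℕ} {M : ℕ → ℕ} {pb L : ℕ} {A : ℕ → ℕ}
    (h : SearchMem w M pb L A) {s : St} {p0 N' q0 N : ℕ} {H : Prop}
    (hm : s.mem = M) (h2 : s.reg 2 = 1) (h22 : s.reg 22 = 0)
    (h4 : s.reg 4 = pb) (h5 : s.reg 5 = pb + L) (h9 : s.reg 9 = p0) (h10 : s.reg 10 = p0 + N')
    (h11 : s.reg 11 = q0) (h12 : s.reg 12 = q0 + N)
    (h20 : Flag (s.reg 20) H)
    (hX : ∀ p, p0 ≤ p → p < p0 + N' → ∀ q, q0 ≤ q → q < q0 + N →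
      M p + M q < A (2 ^ L) ∧ M p + M q < 2 ^ w)
    (hq : q0 + N < 2 ^ w) (hp : p0 + N' < 2 ^ w) :
    Runs w (.loop 9 10 pBody) s (fun s' t => Same {9, 13, 14, 15, 16, 17, 18, 19, 20} s s' ∧
      Flag (s'.reg 20) (H ∨ ∃ p, p0 ≤ p ∧ p < p0 + N' ∧ ∃ q, q0 ≤ q ∧ q < q0 + N ∧
        ∃ i, A i = M p + M q) ∧
      t ≤ N' * (N * (9 * L + 13) + 7) + 2) := by
  refine Runs.loop N' (fun i s' τ => Same {9, 13, 14, 15, 16, 17, 18, 19, 20} s s' ∧
      s'.reg 9 = p0 + i ∧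
      Flag (s'.reg 20) (H ∨ ∃ p, p0 ≤ p ∧ p < p0 + i ∧ ∃ q, q0 ≤ q ∧ q < q0 + N ∧
        ∃ i, A i = M p + M q) ∧
      τ ≤ i * (N * (9 * L + 13) + 7)) ?_ ?_ ?_ ?_
  · rintro i s' τ hi ⟨hS, g9, g20, hτ⟩
    have g10 : s'.reg 10 = p0 + N' := by rw [hS.2 10 (by simp), h10]
    refine ⟨by omega, ?_⟩
    refine (runs_pBody h (by rw [hS.1, hm]) (by rw [hS.2 2 (by simp), h2])
      (by rw [hS.2 22 (by simp), h22]) (by rw [hS.2 4 (by simp), h4])
      (by rw [hS.2 5 (by simp), h5]) g9 (by rw [hS.2 11 (by simp), h11])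
      (by rw [hS.2 12 (by simp), h12]) g20
      (hX _ (by omega) (by omega)) hq (by omega)).mono ?_
    rintro s'' t ⟨hS', g9', g20', ht⟩
    refine ⟨hS.trans hS', g9', g20'.congr ?_, ?_⟩
    · constructor
      · rintro ((hH | ⟨q, hq1, hq2, hq3⟩) | hr)
        · exact Or.inl hH
        · exact Or.inr ⟨q, hq1, by omega, hq3⟩
        · exact Or.inr ⟨p0 + i, by omega, by omega, hr⟩
      · rintro (hH | ⟨q, hq1, hq2, hq3⟩)
        · exact Or.inl (Or.inl hH)
        · rcases Nat.lt_or_ge q (p0 + i) with h' | h'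
          · exact Or.inl (Or.inr ⟨q, hq1, h', hq3⟩)
          · have : q = p0 + i := by omega
            subst this
            exact Or.inr hq3
    · have : (i + 1) * (N * (9 * L + 13) + 7) = i * (N * (9 * L + 13) + 7) +
        (N * (9 * L + 13) + 7) := by ring
      omega
  · rintro s' τ ⟨hS, g9, -, -⟩
    rw [g9, hS.2 10 (by simp), h10]; omega
  · refine ⟨Same.refl _ _, by simpa using h9, h20.congr ?_, by omega⟩
    constructor
    · exact Or.inl
    · rintro (hH | ⟨q, hq1, hq2, -⟩)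
      · exact hH
      · omega
  · rintro s' τ ⟨hS, g9, g20, hτ⟩
    exact ⟨hS, g20, by omega⟩

end Pool.Agent.N594.KR
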