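import Pool.Agent.N594.KR.Prog2

/-!
Correctness and running time of the query program, part 2.
-/

namespace Pool.Agent.N594.KR

open Pool.Agent.H588R2

/-- A hit at level `j`, for offset tables at `oa` and `ob`. -/
def Hit (M A : ℕ → ℕ) (oa ob j : ℕ) : Prop :=
  ∃ p, M (oa + j) ≤ p ∧ p < M (oa + j + 1) ∧ ∃ q, M (ob + j) ≤ q ∧ q < M (ob + j + 1) ∧
    ∃ i, A i = M p + M q

theorem runs_jBody {w : ℕ} {M : ℕ → ℕ} {pb L : ℕ} {A : ℕ → ℕ}
    (h : SearchMem w M pb L A) {s : St} {oa ob j W : ℕ} {H : Prop}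
    (hm : s.mem = M) (h2 : s.reg 2 = 1) (h22 : s.reg 22 = 0)
    (h4 : s.reg 4 = pb) (h5 : s.reg 5 = pb + L) (h6 : s.reg 6 = oa + j) (h8 : s.reg 8 = ob + j)
    (h20 : Flag (s.reg 20) H)
    (hoa : oa + j + 1 < 2 ^ w) (hob : ob + j + 1 < 2 ^ w)
    (ha : M (oa + j) ≤ M (oa + j + 1)) (hb : M (ob + j) ≤ M (ob + j + 1))
    (hW : (M (oa + j + 1) - M (oa + j)) * ((M (ob + j + 1) - M (ob + j)) + 1) ≤ W)
    (hX : ∀ p, M (oa + j) ≤ p → p < M (oa + j + 1) → ∀ q, M (ob + j) ≤ q →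
      q < M (ob + j + 1) → M p + M q < A (2 ^ L) ∧ M p + M q < 2 ^ w) :
    Runs w jBody s (fun s' t => Same {6, 8, 9, 10, 11, 12, 13, 14, 15, 16, 17, 18, 19, 20} s s' ∧
      s'.reg 6 = oa + (j + 1) ∧ s'.reg 8 = ob + (j + 1) ∧
      Flag (s'.reg 20) (H ∨ Hit M A oa ob j) ∧ t ≤ W * (9 * L + 13) + 8) := by
  have hMa := h.hM (oa + j + 1)
  have hMb := h.hM (ob + j + 1)
  unfold jBody
  refine Runs.seq (Runs.load (by rw [hm]; exact h.hM _) ?_)
  refine Runs.seq (Runs.add ?_ ?_)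
  · simp only [set_reg', h6, h2]; norm_num; exact hoa
  simp only [set_reg', hm, h6, h2]
  norm_num
  refine Runs.seq (Runs.load (by simp only [St.set_mem]; rw [hm]; exact h.hM _) ?_)
  simp only [St.set_mem, set_reg', hm]
  norm_num
  refine Runs.seq (Runs.load (by simp only [St.set_mem]; rw [hm]; exact h.hM _) ?_)
  simp only [St.set_mem, set_reg', hm, h8]
  norm_num
  refine Runs.seq (Runs.add ?_ ?_)
  · simp only [set_reg', h8, h2]; norm_num; exact hob
  simp only [set_reg', h8, h2]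
  norm_num
  refine Runs.seq (Runs.load (by simp only [St.set_mem]; rw [hm]; exact h.hM _) ?_)
  simp only [St.set_mem, set_reg', hm]
  norm_num
  set s1 := (((((s.set 9 (M (oa + j))).set 6 (oa + j + 1)).set 10 (M (oa + j + 1))).set 11
    (M (ob + j))).set 8 (ob + j + 1)).set 12 (M (ob + j + 1)) with hs1
  have hS1 : Same {6, 8, 9, 10, 11, 12, 13, 14, 15, 16, 17, 18, 19, 20} s s1 :=
    ((((((Same.refl _ s).set (by simp) _).set (by simp) _).set (by simp) _).set (by simp) _).set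
      (by simp) _).set (by simp) _
  refine (runs_pLoop h (s := s1) (p0 := M (oa + j)) (N' := M (oa + j + 1) - M (oa + j))
    (q0 := M (ob + j)) (N := M (ob + j + 1) - M (ob + j)) (H := H)
    (by rw [hS1.1, hm])
    (by rw [hs1]; simp [set_reg', h2]) (by rw [hs1]; simp [set_reg', h22])
    (by rw [hs1]; simp [set_reg', h4]) (by rw [hs1]; simp [set_reg', h5])
    (by rw [hs1]; simp [set_reg']) (by rw [hs1]; simp [set_reg']; omega)
    (by rw [hs1]; simp [set_reg']) (by rw [hs1]; simp [set_reg']; omega)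
    (by rw [hs1]; simpa [set_reg'] using h20)
    (fun p hp1 hp2 q hq1 hq2 => hX p hp1 (by omega) q hq1 (by omega)) (by omega) (by omega)).mono ?_
  rintro s2 t ⟨hS2, g20, ht⟩
  refine ⟨hS1.trans (hS2.mono (by
    intro x hx; simp only [Set.mem_insert_iff, Set.mem_singleton_iff] at hx ⊢; omega)), ?_, ?_,
    g20.congr ?_, ?_⟩
  · rw [hS2.2 6 (by simp), hs1]; simp [set_reg']; omega
  · rw [hS2.2 8 (by simp), hs1]; simp [set_reg']; omega
  · have e1 : M (oa + j) + (M (oa + j + 1) - M (oa + j)) = M (oa + j + 1) := by omega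
    have e2 : M (ob + j) + (M (ob + j + 1) - M (ob + j)) = M (ob + j + 1) := by omega
    rw [e1, e2]
    rfl
  · have := Nat.mul_le_mul_right (9 * L + 13) hW
    generalize hN' : M (oa + j + 1) - M (oa + j) = N' at *
    generalize hN : M (ob + j + 1) - M (ob + j) = N at *
    have e : N' * (N + 1) * (9 * L + 13) = N' * (N * (9 * L + 13) + 7) + N' * (9 * L + 6) := by
      ring
    omega

theorem runs_jLoop {w : ℕ} {M : ℕ → ℕ} {pb L : ℕ} {A : ℕ → ℕ}
    (h : SearchMem w M pb L A) {s : St} {oa ob J W : ℕ} {H : Prop}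
    (hm : s.mem = M) (h2 : s.reg 2 = 1) (h22 : s.reg 22 = 0)
    (h4 : s.reg 4 = pb) (h5 : s.reg 5 = pb + L) (h6 : s.reg 6 = oa) (h8 : s.reg 8 = ob)
    (h7 : s.reg 7 = oa + J)
    (h20 : Flag (s.reg 20) H)
    (hoa : oa + J < 2 ^ w) (hob : ob + J < 2 ^ w)
    (ha : ∀ j < J, M (oa + j) ≤ M (oa + j + 1)) (hb : ∀ j < J, M (ob + j) ≤ M (ob + j + 1))
    (hW : ∀ j < J, (M (oa + j + 1) - M (oa + j)) * ((M (ob + j + 1) - M (ob + j)) + 1) ≤ W)
    (hX : ∀ j < J, ∀ p, M (oa + j) ≤ p → p < M (oa + j + 1) → ∀ q, M (ob + j) ≤ q →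
      q < M (ob + j + 1) → M p + M q < A (2 ^ L) ∧ M p + M q < 2 ^ w) :
    Runs w (.loop 6 7 jBody) s (fun s' t =>
      Same {6, 8, 9, 10, 11, 12, 13, 14, 15, 16, 17, 18, 19, 20} s s' ∧
      Flag (s'.reg 20) (H ∨ ∃ j < J, Hit M A oa ob j) ∧ t ≤ J * (W * (9 * L + 13) + 10) + 2) := by
  refine Runs.loop J (fun i s' τ =>
      Same {6, 8, 9, 10, 11, 12, 13, 14, 15, 16, 17, 18, 19, 20} s s' ∧
      s'.reg 6 = oa + i ∧ s'.reg 8 = ob + i ∧
      Flag (s'.reg 20) (H ∨ ∃ j < i, Hit M A oa ob j) ∧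
      τ ≤ i * (W * (9 * L + 13) + 10)) ?_ ?_ ?_ ?_
  · rintro i s' τ hi ⟨hS, g6, g8, g20, hτ⟩
    have g7 : s'.reg 7 = oa + J := by rw [hS.2 7 (by simp), h7]
    refine ⟨by omega, ?_⟩
    refine (runs_jBody h (by rw [hS.1, hm]) (by rw [hS.2 2 (by simp), h2])
      (by rw [hS.2 22 (by simp), h22]) (by rw [hS.2 4 (by simp), h4])
      (by rw [hS.2 5 (by simp), h5]) g6 g8 g20 (by omega) (by omega) (ha i hi) (hb i hi)
      (hW i hi) (hX i hi)).mono ?_
    rintro s'' t ⟨hS', g6', g8', g20', ht⟩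
    refine ⟨hS.trans hS', g6', g8', g20'.congr ?_, ?_⟩
    · constructor
      · rintro ((hH | ⟨j, hj, hj2⟩) | hr)
        · exact Or.inl hH
        · exact Or.inr ⟨j, by omega, hj2⟩
        · exact Or.inr ⟨i, by omega, hr⟩
      · rintro (hH | ⟨j, hj, hj2⟩)
        · exact Or.inl (Or.inl hH)
        · rcases Nat.lt_or_ge j i with h' | h'
          · exact Or.inl (Or.inr ⟨j, h', hj2⟩)
          · have : j = i := by omega
            subst this
            exact Or.inr hj2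
    · have : (i + 1) * (W * (9 * L + 13) + 10) = i * (W * (9 * L + 13) + 10) +
        (W * (9 * L + 13) + 10) := by ring
      omega
  · rintro s' τ ⟨hS, g6, -, -⟩
    rw [g6, hS.2 7 (by simp), h7]; omega
  · refine ⟨Same.refl _ _, by simpa using h6, by simpa using h8, h20.congr ?_, by omega⟩
    constructor
    · exact Or.inl
    · rintro (hH | ⟨j, hj, -⟩)
      · exact hH
      · omega
  · rintro s' τ ⟨hS, g6, g8, g20, hτ⟩
    exact ⟨hS, g20, by omega⟩

theorem runs_query {w : ℕ} {M : ℕ → ℕ} {pb L : ℕ} {A : ℕ → ℕ}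
    (h : SearchMem w M pb L A) {s : St} {u v J NJ W : ℕ}
    (hm : s.mem = M) (h0 : s.reg 0 = u) (h1 : s.reg 1 = v)
    (m0 : M 0 = J) (m1 : M 1 = NJ) (m2 : M 2 = pb) (m3 : M 3 = pb + L)
    (hoa : 8 + u * J + J < 2 ^ w) (hob : 8 + NJ + v * J + J < 2 ^ w)
    (ha : ∀ j < J, M (8 + u * J + j) ≤ M (8 + u * J + j + 1))
    (hb : ∀ j < J, M (8 + NJ + v * J + j) ≤ M (8 + NJ + v * J + j + 1))
    (hW : ∀ j < J, (M (8 + u * J + j + 1) - M (8 + u * J + j)) *
      ((M (8 + NJ + v * J + j + 1) - M (8 + NJ + v * J + j)) + 1) ≤ W)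
    (hX : ∀ j < J, ∀ p, M (8 + u * J + j) ≤ p → p < M (8 + u * J + j + 1) → ∀ q,
      M (8 + NJ + v * J + j) ≤ q →
      q < M (8 + NJ + v * J + j + 1) → M p + M q < A (2 ^ L) ∧ M p + M q < 2 ^ w) :
    Runs w queryCmd s (fun s' t =>
      Flag (s'.reg 0) (∃ j < J, Hit M A (8 + u * J) (8 + NJ + v * J) j) ∧
      t ≤ J * (W * (9 * L + 13) + 10) + 20) := by
  unfold queryCmd
  refine Runs.seq (Runs.const (by omega) ?_)
  refine Runs.seq (Runs.const (by omega) ?_)
  refine Runs.seq (Runs.const (by omega) ?_)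
  refine Runs.seq (Runs.load (by simp only [St.set_mem]; rw [hm]; exact h.hM _) ?_)
  simp only [St.set_mem, set_reg', hm]
  norm_num
  refine Runs.seq (Runs.load (by simp only [St.set_mem]; rw [hm]; exact h.hM _) ?_)
  simp only [St.set_mem, set_reg', hm]
  norm_num
  refine Runs.seq (Runs.const (by omega) ?_)
  refine Runs.seq (Runs.load (by simp only [St.set_mem]; rw [hm]; exact h.hM _) ?_)
  simp only [St.set_mem, set_reg', hm]
  norm_num
  refine Runs.seq (Runs.const (by omega) ?_)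
  refine Runs.seq (Runs.load (by simp only [St.set_mem]; rw [hm]; exact h.hM _) ?_)
  simp only [St.set_mem, set_reg', hm]
  norm_num
  refine Runs.seq (Runs.const (by omega) ?_)
  refine Runs.seq (Runs.mul ?_ ?_)
  · simp only [set_reg', h0, m0]; norm_num; omega
  simp only [set_reg', h0, m0]
  norm_num
  refine Runs.seq (Runs.add ?_ ?_)
  · simp only [set_reg']; norm_num; omega
  simp only [set_reg']
  norm_num
  refine Runs.seq (Runs.add ?_ ?_)
  · simp only [set_reg']; norm_num; omega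
  simp only [set_reg']
  norm_num
  refine Runs.seq (Runs.mul ?_ ?_)
  · simp only [set_reg', h1]; norm_num; omega
  simp only [set_reg', h1]
  norm_num
  refine Runs.seq (Runs.add ?_ ?_)
  · simp only [set_reg', m1]; norm_num; omega
  simp only [set_reg', m1]
  norm_num
  refine Runs.seq (Runs.add ?_ ?_)
  · simp only [set_reg']; norm_num; omega
  simp only [set_reg']
  norm_num
  refine Runs.seq (Runs.const (by omega) ?_)
  refine Runs.seq ?_
  refine (runs_jLoop h (oa := 8 + u * J) (ob := 8 + NJ + v * J) (J := J) (W := W) (H := False)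
    (by simp only [St.set_mem]; exact hm)
    (by simp [set_reg']) (by simp [set_reg']) (by simp [set_reg', m2]) (by simp [set_reg', m3])
    (by simp [set_reg']; omega) (by simp [set_reg']; omega) (by simp [set_reg']; omega)
    (by simp [set_reg', Flag]) hoa hob ha hb hW hX).mono ?_
  rintro s' t ⟨hS, g20, ht⟩
  have g22 : s'.reg 22 = 0 := by rw [hS.2 22 (by simp)]; simp [set_reg']
  refine Runs.add ?_ ?_
  · rw [g22]
    rcases g20 with ⟨e, -⟩ | ⟨e, -⟩ <;> omega
  · refine ⟨?_, by omega⟩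
    rw [g22]
    simp only [set_reg']
    norm_num
    exact g20.congr (by simp)

theorem haltsWithin_prog {w : ℕ} {M : ℕ → ℕ} {pb L : ℕ} {A : ℕ → ℕ}
    (h : SearchMem w M pb L A) {u v J NJ W : ℕ} {T : ℝ} {H : Prop} {out : ℕ}
    (m0 : M 0 = J) (m1 : M 1 = NJ) (m2 : M 2 = pb) (m3 : M 3 = pb + L)
    (hoa : 8 + u * J + J < 2 ^ w) (hob : 8 + NJ + v * J + J < 2 ^ w)
    (ha : ∀ j < J, M (8 + u * J + j) ≤ M (8 + u * J + j + 1))
    (hb : ∀ j < J, M (8 + NJ + v * J + j) ≤ M (8 + NJ + v * J + j + 1))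
    (hW : ∀ j < J, (M (8 + u * J + j + 1) - M (8 + u * J + j)) *
      ((M (8 + NJ + v * J + j + 1) - M (8 + NJ + v * J + j)) + 1) ≤ W)
    (hX : ∀ j < J, ∀ p, M (8 + u * J + j) ≤ p → p < M (8 + u * J + j + 1) → ∀ q,
      M (8 + NJ + v * J + j) ≤ q →
      q < M (8 + NJ + v * J + j + 1) → M p + M q < A (2 ^ L) ∧ M p + M q < 2 ^ w)
    (hT : ((J * (W * (9 * L + 13) + 10) + 20 : ℕ) : ℝ) ≤ T)
    (hH : H ↔ ∃ j < J, Hit M A (8 + u * J) (8 + NJ + v * J) j)
    (hout : Flag out H) :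
    HaltsWithin w prog ⟨0, ⟨fun r => if r = 0 then u else if r = 1 then v else 0, M⟩⟩ T out := by
  obtain ⟨s', t, hex, hflag, ht⟩ := runs_query h
    (s := ⟨fun r => if r = 0 then u else if r = 1 then v else 0, M⟩) (u := u) (v := v)
    rfl (by simp) (by simp) m0 m1 m2 m3 hoa hob ha hb hW hX
  have hc := compile_correct w prog hex 0 (by intro i _; simp [prog])
  refine ⟨t, le_trans (by exact_mod_cast ht) hT, ?_, ?_⟩
  · rw [hc]
    right
    simp only [prog]
    rw [List.getElem?_eq_none]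
    rw [Cmd.length_compile]; simp
  · rw [hc]
    have := hflag.congr hH.symm
    unfold Flag at this hout
    rcases this with ⟨h1, h2⟩ | ⟨h1, h2⟩ <;> rcases hout with ⟨h3, h4⟩ | ⟨h3, h4⟩
    · rw [h1, h3]
    · exact absurd h2 h4
    · exact absurd h4 h2
    · rw [h1, h3]

end Pool.Agent.N594.KR
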