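import Pool.Agent.N594.KR.Gam
import Pool.Agent.N594.KR.Assemble

/-!
The tradeoff theorem.
-/

namespace Pool.Agent.N594.KR

open Pool.Agent.H588R2

theorem prog_noStore : ∀ a s : ℕ, Instr.op (Op.store a s) ∉ prog := by
  intro a s h
  simp [prog, queryCmd, jBody, pBody, qBody, search, searchBody, Cmd.compile] at h

/-- Natural number bounds for given level `I`. -/
theorem nat_bounds {k C I Θ n L : ℕ} (hn : 1 ≤ n) (hI : 2 ^ (I * (2 * k + 2)) ≤ n) (hk : 1 ≤ k)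
    (hΘ : Θ ≤ 2 ^ (2 * I))
    (hL : 2 ^ L * Θ ≤ 2 * (((k + 1) ^ 2 * (4 * (C + 1) + (C + 1) ^ 2 + 1)) * n ^ 2 + Θ)) :
    (9 + 2 * (n * (I + 2)) + 2 * (n * (I + 2)) * ((k + 1) * 2 ^ (I + 1)) + L + 2 ^ L) * Θ ≤
      (25 + 8 * k + 4 * ((k + 1) ^ 2 * (4 * (C + 1) + (C + 1) ^ 2 + 1) + 1)) * n ^ 2 := by
  set K1 := (k + 1) ^ 2 * (4 * (C + 1) + (C + 1) ^ 2 + 1) with hK1
  have hnn : n ≤ n ^ 2 := by nlinarith
  have h4 : 2 ^ (4 * I) ≤ n :=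
    le_trans (Nat.pow_le_pow_right (by norm_num) (by nlinarith)) hI
  have hΘn : Θ ≤ n := le_trans hΘ (le_trans (Nat.pow_le_pow_right (by norm_num) (by omega)) h4)
  have hΘn2 : Θ ≤ n ^ 2 := le_trans hΘn hnn
  have hI2 : I + 2 ≤ 2 ^ (I + 1) := by
    have := Nat.lt_two_pow_self (n := I + 1)
    omega
  have hA : (I + 2) * 2 ^ (I + 1) * Θ ≤ 4 * n := by
    calc (I + 2) * 2 ^ (I + 1) * Θ ≤ 2 ^ (I + 1) * 2 ^ (I + 1) * 2 ^ (2 * I) := by gcongr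
      _ = 4 * 2 ^ (4 * I) := by ring
      _ ≤ _ := by omega
  have hB : (2 * (n * (I + 2)) + 2 * (n * (I + 2)) * ((k + 1) * 2 ^ (I + 1))) * Θ ≤
      (16 + 8 * k) * n ^ 2 := by
    have hone : 1 ≤ 2 ^ (I + 1) := Nat.one_le_two_pow
    calc (2 * (n * (I + 2)) + 2 * (n * (I + 2)) * ((k + 1) * 2 ^ (I + 1))) * Θ
        ≤ (2 * (n * (I + 2)) * 2 ^ (I + 1) +
          2 * (n * (I + 2)) * ((k + 1) * 2 ^ (I + 1))) * Θ :=
          Nat.mul_le_mul_right _ (Nat.add_le_add_right (Nat.le_mul_of_pos_right _ hone) _)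
      _ = 2 * (k + 2) * n * ((I + 2) * 2 ^ (I + 1) * Θ) := by ring
      _ ≤ 2 * (k + 2) * n * (4 * n) := Nat.mul_le_mul_left _ hA
      _ = _ := by ring
  have hLL : L ≤ 2 ^ L := Nat.lt_two_pow_self.le
  have hC : (L + 2 ^ L) * Θ ≤ 4 * (K1 + 1) * n ^ 2 := by
    calc (L + 2 ^ L) * Θ ≤ (2 ^ L + 2 ^ L) * Θ := by gcongr
      _ = 2 * (2 ^ L * Θ) := by ring
      _ ≤ 2 * (2 * (K1 * n ^ 2 + Θ)) := Nat.mul_le_mul_left _ hL
      _ ≤ 2 * (2 * (K1 * n ^ 2 + n ^ 2)) := by gcongr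
      _ = _ := by ring
  have e : (9 + 2 * (n * (I + 2)) + 2 * (n * (I + 2)) * ((k + 1) * 2 ^ (I + 1)) + L + 2 ^ L) * Θ
      = 9 * Θ + (2 * (n * (I + 2)) + 2 * (n * (I + 2)) * ((k + 1) * 2 ^ (I + 1))) * Θ +
        (L + 2 ^ L) * Θ := by ring
  rw [e]
  have e2 : (25 + 8 * k + 4 * (K1 + 1)) * n ^ 2 =
    9 * n ^ 2 + (16 + 8 * k) * n ^ 2 + 4 * (K1 + 1) * n ^ 2 := by ring
  rw [e2]
  omega

theorem tradeoff (k C : ℕ) (hk : 2 ≤ k) : ∃ (b : ℕ) (K : ℝ), 0 < K ∧ ∀ τ : ℕ → ℝ,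
    (∀ n : ℕ, 1 ≤ n → 1 ≤ τ n ∧ τ n ^ (2 * k + 2) ≤ n) →
    IsOracle k C b prog (fun n => K * (n : ℝ) ^ 2 / τ n ^ gam k)
      (fun n => K * τ n * Real.log (n + 2) ^ 2) := by
  obtain ⟨K1, hK1⟩ : ∃ K1, K1 = (k + 1) ^ 2 * (4 * (C + 1) + (C + 1) ^ 2 + 1) := ⟨_, rfl⟩
  obtain ⟨K2, hK2⟩ : ∃ K2, K2 = 25 + 8 * k + 4 * (K1 + 1) := ⟨_, rfl⟩
  obtain ⟨K3, hK3⟩ : ∃ K3, K3 = K2 + (k + 1) ^ 2 + 10 := ⟨_, rfl⟩
  obtain ⟨K5, hK5⟩ : ∃ K5 : ℝ, K5 = 2 * Real.log (2 * (K1 + 1)) + 4 := ⟨_, rfl⟩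
  obtain ⟨K4, hK4⟩ : ∃ K4 : ℝ, K4 = 4 * ((k + 1) * (k + 2) * 2 * (9 * K5 + 13) + 10) + 20 :=
    ⟨_, rfl⟩
  have hK5pos : 0 ≤ K5 := by
    have : 0 ≤ Real.log (2 * ((K1 : ℝ) + 1)) := Real.log_nonneg (by
      have : (0 : ℝ) ≤ K1 := Nat.cast_nonneg _
      linarith)
    rw [hK5]; linarith
  have hK4pos : 0 < K4 := by rw [hK4]; positivity
  refine ⟨K3 + 2, max (4 * K2) K4, lt_max_of_lt_right hK4pos, ?_⟩
  intro τ hτ
  refine ⟨prog_noStore, ?_⟩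
  intro n w hw E hE
  rcases Nat.eq_zero_or_pos n with hn0 | hn
  · subst hn0
    exact ⟨fun _ => 0, fun _ => by positivity, fun _ _ => rfl, fun u => u.elim0⟩
  obtain ⟨hτ1, hτ2⟩ := hτ n hn
  have hnR : (1 : ℝ) ≤ n := by exact_mod_cast hn
  set I := Nat.log 2 ⌊τ n⌋₊ with hI
  have hfl : 1 ≤ ⌊τ n⌋₊ := Nat.one_le_floor_iff _ |>.2 hτ1
  have hI1 : (2 : ℝ) ^ I ≤ τ n := by
    have h1 : 2 ^ I ≤ ⌊τ n⌋₊ := Nat.pow_log_le_self 2 (by omega)
    calc (2 : ℝ) ^ I ≤ (⌊τ n⌋₊ : ℝ) := by exact_mod_cast h1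
      _ ≤ _ := Nat.floor_le (by linarith)
  have hI2 : τ n ≤ (2 : ℝ) ^ (I + 1) := by
    have h1 : ⌊τ n⌋₊ < 2 ^ (I + 1) := Nat.lt_pow_succ_log_self (by norm_num) _
    have h2 : τ n < ⌊τ n⌋₊ + 1 := Nat.lt_floor_add_one _
    have h3 : ((⌊τ n⌋₊ + 1 : ℕ) : ℝ) ≤ (2 ^ (I + 1) : ℕ) := by exact_mod_cast h1
    push_cast at h3
    linarith
  have hIn : 2 ^ (I * (2 * k + 2)) ≤ n := by
    have : ((2 : ℝ) ^ I) ^ (2 * k + 2) ≤ n := le_trans (by gcongr) hτ2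
    rw [← pow_mul] at this
    exact_mod_cast this
  have hγ2 := gam_le_two hk
  have hγ0 := gam_pos hk
  set Θ := ⌈(2 : ℝ) ^ (gam k * I)⌉₊ with hΘdef
  have hΘpow : (2 : ℝ) ^ (gam k * I) ≤ ((2 ^ (2 * I) : ℕ) : ℝ) := by
    calc (2 : ℝ) ^ (gam k * I) ≤ (2 : ℝ) ^ (2 * (I : ℝ)) := by
          apply Real.rpow_le_rpow_of_exponent_le (by norm_num)
          exact mul_le_mul_of_nonneg_right hγ2 (Nat.cast_nonneg _)
      _ = _ := by
          rw [show (2 : ℝ) * (I : ℝ) = ((2 * I : ℕ) : ℝ) by push_cast; ring, Real.rpow_natCast]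
          norm_num
  have hΘle : Θ ≤ 2 ^ (2 * I) := Nat.ceil_le.2 hΘpow
  have hΘ1 : 1 ≤ Θ := Nat.one_le_ceil_iff.2 (by positivity)
  have hΘge : (2 : ℝ) ^ (gam k * I) ≤ Θ := Nat.le_ceil _
  have hΘn : Θ ^ (k + 1) ≤ n := by
    calc Θ ^ (k + 1) ≤ (2 ^ (2 * I)) ^ (k + 1) := Nat.pow_le_pow_left hΘle _
      _ = 2 ^ (I * (2 * k + 2)) := by rw [← pow_mul]; congr 1; ring
      _ ≤ n := hIn
  have hΘcond : ∀ P Q N : ℕ, 0 < P → 0 < Q → P + Q ≤ k →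
      (2 : ℝ) ^ ((I : ℝ) * (1 / P + 1 / Q)) ≤ (N : ℝ) → Θ ≤ N := by
    intro P Q N hP hQ hPQ hN
    refine Nat.ceil_le.2 (le_trans ?_ hN)
    apply Real.rpow_le_rpow_of_exponent_le (by norm_num)
    rw [mul_comm]
    exact mul_le_mul_of_nonneg_left (gam_le hP hQ hPQ) (Nat.cast_nonneg _)
  -- word size
  have hwbig : K3 * n ^ 2 < 2 ^ w := by
    refine lt_of_lt_of_le ?_ hw
    have h1 : K3 < 2 ^ K3 := Nat.lt_two_pow_self
    calc K3 * n ^ 2 < 2 ^ K3 * (n + 1) ^ 2 := by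
          have : n ^ 2 ≤ (n + 1) ^ 2 := Nat.pow_le_pow_left (by omega) 2
          have h5 : 0 < (n + 1) ^ 2 := by positivity
          exact lt_of_le_of_lt (Nat.mul_le_mul_left _ this) (Nat.mul_lt_mul_of_pos_right h1 h5)
      _ ≤ (n + 1) ^ K3 * (n + 1) ^ 2 := 
          Nat.mul_le_mul_right _ (Nat.pow_le_pow_left (by omega) _)
      _ = _ := by rw [← pow_add]
  have hn2 : 1 ≤ n ^ 2 := Nat.one_le_pow _ _ hn
  have hIle : I + 2 ≤ 4 * n ^ 2 := by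
    have h1 : 2 ^ I ≤ n := le_trans (Nat.pow_le_pow_right (by norm_num)
      (Nat.le_mul_of_pos_right _ (by omega))) hIn
    have h2 := Nat.lt_two_pow_self (n := I)
    nlinarith
  obtain ⟨L, hL, M, hM1, hM2, hM3⟩ := one_graph (k := k) (C := C) (I := I) (Θ := Θ) (w := w)
    E hE hΘcond hΘn (by
      intro L hL
      have hb := nat_bounds hn hIn (by omega) hΘle hL
      rw [← hK1, ← hK2] at hb
      obtain ⟨X, hX⟩ : ∃ X, X = 9 + 2 * (n * (I + 2)) +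
        2 * (n * (I + 2)) * ((k + 1) * 2 ^ (I + 1)) + L + 2 ^ L := ⟨_, rfl⟩
      rw [← hX] at hb
      have hX1 : X ≤ K2 * n ^ 2 := le_trans (Nat.le_mul_of_pos_right _ hΘ1) hb
      have e3 : K3 * n ^ 2 = K2 * n ^ 2 + (k + 1) ^ 2 * n ^ 2 + 10 * n ^ 2 := by
        rw [hK3]; ring
      constructor
      · omega
      · omega)
  have hb := nat_bounds hn hIn (by omega) hΘle hL
  rw [← hK1, ← hK2] at hb
  rw [← hK1] at hL
  obtain ⟨X, hX⟩ : ∃ X, X = 9 + 2 * (n * (I + 2)) +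
    2 * (n * (I + 2)) * ((k + 1) * 2 ^ (I + 1)) + L + 2 ^ L := ⟨_, rfl⟩
  rw [← hX] at hb hM2
  refine ⟨M, hM1, ?_, ?_⟩
  · intro i hi
    refine hM2 i ?_
    have hτpos : 0 < τ n := by linarith
    have hpowpos : 0 < τ n ^ gam k := Real.rpow_pos_of_pos hτpos _
    have h1 : (X : ℝ) * Θ ≤ K2 * (n : ℝ) ^ 2 := by exact_mod_cast hb
    have h2 : τ n ^ gam k ≤ 4 * Θ := by
      calc τ n ^ gam k ≤ ((2 : ℝ) ^ (I + 1)) ^ gam k :=
            Real.rpow_le_rpow hτpos.le hI2 hγ0.le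
        _ = (2 : ℝ) ^ (gam k * I) * (2 : ℝ) ^ gam k := by
            rw [← Real.rpow_natCast, ← Real.rpow_mul (by norm_num),
              ← Real.rpow_add (by norm_num)]
            congr 1; push_cast; ring
        _ ≤ Θ * (2 : ℝ) ^ (2 : ℝ) := by
            gcongr
            norm_num
        _ = 4 * Θ := by
            rw [show (2 : ℝ) ^ (2 : ℝ) = 4 by norm_num]; ring
    have h3 : (X : ℝ) ≤ max (4 * (K2 : ℝ)) K4 * (n : ℝ) ^ 2 / τ n ^ gam k := by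
      rw [le_div_iff₀ hpowpos]
      calc (X : ℝ) * τ n ^ gam k ≤ X * (4 * Θ) := by gcongr
        _ = 4 * (X * Θ) := by ring
        _ ≤ 4 * (K2 * (n : ℝ) ^ 2) := by gcongr
        _ = 4 * K2 * (n : ℝ) ^ 2 := by ring
        _ ≤ _ := by
            apply mul_le_mul_of_nonneg_right (le_max_left _ _) (by positivity)
    have h4 : (X : ℝ) ≤ i := le_trans h3 hi
    exact_mod_cast h4
  · intro u v
    refine hM3 u v _ ?_
    -- time bound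
    set ℓ := Real.log ((n : ℝ) + 2) with hℓ
    have hℓ1 : 1 ≤ ℓ := by
      rw [hℓ, Real.le_log_iff_exp_le (by positivity)]
      have := Real.exp_one_lt_d9
      linarith
    have hlog2 : 1 / 2 < Real.log 2 := by
      have := Real.log_two_gt_d9; linarith
    have hlogn : Real.log n ≤ ℓ := Real.log_le_log (by linarith) (by linarith)
    have hIℓ : (I : ℝ) ≤ 2 * ℓ := by
      have h1 : (I : ℝ) * Real.log 2 ≤ Real.log n := by
        rw [← Real.log_pow]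
        refine Real.log_le_log (by positivity) ?_
        have h1 : 2 ^ I ≤ n := le_trans (Nat.pow_le_pow_right (by norm_num)
          (Nat.le_mul_of_pos_right _ (by omega))) hIn
        exact_mod_cast h1
      have hI0 : (0 : ℝ) ≤ I := Nat.cast_nonneg _
      nlinarith
    have hLℓ : (L : ℝ) ≤ K5 * ℓ := by
      have h0 : 2 ^ L ≤ 2 * (K1 + 1) * n ^ 2 := by
        have h1 : 2 ^ L * Θ ≤ 2 * (K1 + 1) * n ^ 2 * Θ := by
          refine le_trans hL ?_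
          have : K1 * n ^ 2 + Θ ≤ (K1 + 1) * n ^ 2 * Θ := by
            have h5 : K1 * n ^ 2 ≤ K1 * n ^ 2 * Θ := Nat.le_mul_of_pos_right _ hΘ1
            have h6 : Θ ≤ n ^ 2 * Θ := Nat.le_mul_of_pos_left _ hn2
            calc K1 * n ^ 2 + Θ ≤ K1 * n ^ 2 * Θ + n ^ 2 * Θ := Nat.add_le_add h5 h6
              _ = _ := by ring
          calc 2 * (K1 * n ^ 2 + Θ) ≤ 2 * ((K1 + 1) * n ^ 2 * Θ) := Nat.mul_le_mul_left _ this
            _ = _ := by ring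
        exact Nat.le_of_mul_le_mul_right h1 hΘ1
      have h1 : (L : ℝ) * Real.log 2 ≤ Real.log (2 * (K1 + 1)) + 2 * Real.log n := by
        rw [← Real.log_pow]
        have e : Real.log (2 * (K1 + 1)) + 2 * Real.log n =
            Real.log (2 * (K1 + 1) * (n : ℝ) ^ 2) := by
          rw [Real.log_mul (x := 2 * ((K1 : ℝ) + 1)) (y := (n : ℝ) ^ 2) (by positivity)
            (by positivity), Real.log_pow]
          push_cast; ring
        rw [e]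
        refine Real.log_le_log (by positivity) ?_
        exact_mod_cast h0
      have hlogK : 0 ≤ Real.log (2 * ((K1 : ℝ) + 1)) := Real.log_nonneg (by
        have : (0 : ℝ) ≤ K1 := Nat.cast_nonneg _
        linarith)
      have hL0 : (0 : ℝ) ≤ L := Nat.cast_nonneg _
      have h2 : (L : ℝ) ≤ 2 * Real.log (2 * (K1 + 1)) + 4 * ℓ := by nlinarith
      have h3 : Real.log (2 * ((K1 : ℝ) + 1)) ≤ Real.log (2 * (K1 + 1)) * ℓ :=
        le_mul_of_one_le_right hlogK hℓ1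
      rw [hK5]
      nlinarith
    have hℓ0 : 0 ≤ ℓ := by linarith
    have hτ0 : 0 ≤ τ n := by linarith
    have step1 : ((I : ℝ) + 2) ≤ 4 * ℓ := by linarith
    have step2 : (k + 1) * (k + 2) * (2 : ℝ) ^ (I + 1) * (9 * L + 13) + 10 ≤
        ((k + 1) * (k + 2) * 2 * (9 * K5 + 13) + 10) * (τ n * ℓ) := by
      have h1 : (2 : ℝ) ^ (I + 1) ≤ 2 * τ n := by rw [pow_succ]; linarith
      have h2 : (9 * (L : ℝ) + 13) ≤ (9 * K5 + 13) * ℓ := by nlinarith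
      have h3 : 1 ≤ τ n * ℓ := by nlinarith
      calc (k + 1) * (k + 2) * (2 : ℝ) ^ (I + 1) * (9 * L + 13) + 10
          ≤ (k + 1) * (k + 2) * (2 * τ n) * ((9 * K5 + 13) * ℓ) + 10 * (τ n * ℓ) := by
            gcongr
            linarith
        _ = _ := by ring
    have hKmax : K4 ≤ max (4 * (K2 : ℝ)) K4 := le_max_right _ _
    have key : (((I + 2) * (((k + 1) * (k + 2) * 2 ^ (I + 1)) * (9 * L + 13) + 10) + 20 : ℕ) : ℝ)
        ≤ K4 * τ n * ℓ ^ 2 := by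
      push_cast
      have h20 : (20 : ℝ) ≤ 20 * (τ n * ℓ ^ 2) := by
        have : 1 ≤ τ n * ℓ ^ 2 := by nlinarith
        linarith
      calc ((I : ℝ) + 2) * ((k + 1) * (k + 2) * (2 : ℝ) ^ (I + 1) * (9 * L + 13) + 10) + 20
          ≤ (4 * ℓ) * (((k + 1) * (k + 2) * 2 * (9 * K5 + 13) + 10) * (τ n * ℓ)) +
            20 * (τ n * ℓ ^ 2) := by
            gcongr
        _ = K4 * τ n * ℓ ^ 2 := by rw [hK4]; ring
    refine le_trans key ?_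
    exact mul_le_mul_of_nonneg_right (mul_le_mul_of_nonneg_right hKmax hτ0) (by positivity)

end Pool.Agent.N594.KR
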